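import Pool.Agent.K4H72.Til.Spec

set_option autoImplicit false

open Set

namespace Pool.Agent.K4H72.Til

private theorem t6_norm_E_sq (v : ℤ × ℤ) :
    ‖E v‖ ^ 2 = (v.1 : ℝ) ^ 2 + v.1 * v.2 + (v.2 : ℝ) ^ 2 := by
  rw [← Complex.normSq_eq_norm_sq, Complex.normSq_apply]
  have h3 : Real.sqrt 3 ^ 2 = 3 := Real.sq_sqrt (by norm_num)
  simp only [E, ζ, Complex.add_re, Complex.add_im, Complex.mul_re, Complex.mul_im,
    Complex.intCast_re, Complex.intCast_im]
  nlinarith [h3]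

private theorem t6_E_cases (v : ℤ × ℤ) : v = 0 ∨ (v ∈ six ∧ ‖E v‖ = 1) ∨ 3 ≤ ‖E v‖ ^ 2 := by
  obtain ⟨a, b⟩ := v
  by_cases hN : 3 ≤ a ^ 2 + a * b + b ^ 2
  · right; right
    rw [t6_norm_E_sq]
    exact_mod_cast hN
  · push Not at hN
    have hb : b ^ 2 < 4 := by nlinarith [sq_nonneg (2 * a + b)]
    have ha : a ^ 2 < 4 := by nlinarith [sq_nonneg (2 * b + a)]
    have hb1 : b < 2 := by nlinarith
    have hb2 : -2 < b := by nlinarith
    have ha1 : a < 2 := by nlinarith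
    have ha2 : -2 < a := by nlinarith
    have key : ∀ x y : ℤ, x ^ 2 + x * y + y ^ 2 = 1 → ‖E (x, y)‖ = 1 := by
      intro x y hxy
      have h1 : ‖E (x, y)‖ ^ 2 = 1 := by
        rw [t6_norm_E_sq]
        exact_mod_cast hxy
      nlinarith [norm_nonneg (E (x, y))]
    interval_cases a <;> interval_cases b <;> first
      | (exfalso; revert hN; norm_num; done)
      | (left; rfl)
      | (right; left; exact ⟨by decide, key _ _ (by norm_num)⟩)

/-- the half-plane inequality -/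
private theorem t6_half (h : ℝ) (g : ℤ × ℤ → ℂ) (hg : Def1 h g) (v : ℤ × ℤ) (z : ℂ) (e : ℤ × ℤ)
    (he1 : ‖E e‖ = 1) (hz : ‖z - g v‖ ≤ ‖z - g (v + e)‖) :
    2 * ((z - g v).re * (E e).re + (z - g v).im * (E e).im)
      ≤ 441 / 400 * h + 1 / 10 * ‖z - g v‖ := by
  obtain ⟨h0, hd⟩ := hg
  have hD := hd (v + e) v
  rw [add_sub_cancel_left, he1, mul_one] at hD
  set w : ℂ := g (v + e) - g v with hw
  set x : ℂ := z - g v with hx
  have hxw : z - g (v + e) = x - w := by rw [hx, hw]; ring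
  rw [hxw] at hz
  have hsq : ‖x‖ ^ 2 ≤ ‖x - w‖ ^ 2 := pow_le_pow_left₀ (norm_nonneg _) hz 2
  rw [norm_sub_sq_real x w] at hsq
  set D : ℂ := w - (h : ℂ) * E e with hDdef
  have hwD : w = (h : ℂ) * E e + D := by rw [hDdef]; ring
  have hwn : ‖w‖ ≤ 21 / 20 * h := by
    rw [hwD]
    refine (norm_add_le _ _).trans ?_
    rw [norm_mul, he1, Complex.norm_real, Real.norm_eq_abs, abs_of_pos h0]
    linarith
  have hin : inner ℝ x w = h * (x.re * (E e).re + x.im * (E e).im) + inner ℝ x D := by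
    rw [hwD, inner_add_right]
    congr 1
    rw [Complex.inner]
    simp only [Complex.mul_re, Complex.conj_re, Complex.conj_im, Complex.ofReal_re,
      Complex.ofReal_im, Complex.mul_im]
    ring
  have hcs : -(‖x‖ * ‖D‖) ≤ inner ℝ x D := by
    have := abs_real_inner_le_norm x D
    exact (abs_le.mp this).1
  have hxD : ‖x‖ * ‖D‖ ≤ ‖x‖ * (1 / 20 * h) := mul_le_mul_of_nonneg_left hD (norm_nonneg _)
  have hw2 : ‖w‖ ^ 2 ≤ (21 / 20 * h) ^ 2 := pow_le_pow_left₀ (norm_nonneg _) hwn 2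
  have hmain : h * (2 * (x.re * (E e).re + x.im * (E e).im))
      ≤ h * (441 / 400 * h + 1 / 10 * ‖x‖) := by
    nlinarith
  exact le_of_mul_le_mul_left hmain h0

private theorem t6_form (s t A : ℝ) (s1 : s ≤ A) (s2 : -s ≤ A) (s3 : t ≤ A) (s4 : -t ≤ A)
    (s5 : s - t ≤ A) (s6 : -(s - t) ≤ A) : s ^ 2 - s * t + t ^ 2 ≤ A ^ 2 := by
  have q1 : s ^ 2 ≤ A ^ 2 := sq_le_sq' (by linarith) s1
  have q2 : t ^ 2 ≤ A ^ 2 := sq_le_sq' (by linarith) s3
  have q3 : (s - t) ^ 2 ≤ A ^ 2 := sq_le_sq' (by linarith) s5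
  rcases le_total 0 s with hs | hs <;> rcases le_total 0 t with ht | ht
  · rcases le_total s t with hst | hst
    · nlinarith [mul_nonneg hs (sub_nonneg.mpr hst)]
    · nlinarith [mul_nonneg ht (sub_nonneg.mpr hst)]
  · nlinarith [mul_nonneg hs (neg_nonneg.mpr ht)]
  · nlinarith [mul_nonneg ht (neg_nonneg.mpr hs)]
  · rcases le_total s t with hst | hst
    · nlinarith [mul_nonneg (neg_nonneg.mpr ht) (sub_nonneg.mpr hst)]
    · nlinarith [mul_nonneg (neg_nonneg.mpr hs) (sub_nonneg.mpr hst)]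

private theorem t6_re (v : ℤ × ℤ) : (E v).re = v.1 + v.2 * (1 / 2) := by
  simp [E, ζ]

private theorem t6_im (v : ℤ × ℤ) : (E v).im = v.2 * (Real.sqrt 3 / 2) := by
  simp [E, ζ]

theorem radius (h : ℝ) (g : ℤ × ℤ → ℂ) (hg : Def1 h g) (v : ℤ × ℤ) (z : ℂ)
    (hz : ∀ e ∈ six, ‖z - g v‖ ≤ ‖z - g (v + e)‖) : ‖z - g v‖ ≤ 7 / 10 * h := by
  have h0 := hg.1
  have hone : ∀ e ∈ six, ‖E e‖ = 1 := by
    intro e he
    rcases t6_E_cases e with h1 | h1 | h1
    · subst h1; exact absurd he (by decide)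
    · exact h1.2
    · exfalso
      rw [t6_norm_E_sq] at h1
      have h2 : (3 : ℤ) ≤ e.1 ^ 2 + e.1 * e.2 + e.2 ^ 2 := by exact_mod_cast h1
      revert h2 he
      simp only [six, Finset.mem_insert, Finset.mem_singleton]
      rintro (rfl | rfl | rfl | rfl | rfl | rfl) <;> norm_num
  have H : ∀ e ∈ six, 2 * ((z - g v).re * (E e).re + (z - g v).im * (E e).im)
      ≤ 441 / 400 * h + 1 / 10 * ‖z - g v‖ := fun e he =>
    t6_half h g hg v z e (hone e he) (hz e he)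
  have H1 := H (1, 0) (by decide)
  have H2 := H (-1, 0) (by decide)
  have H3 := H (0, 1) (by decide)
  have H4 := H (0, -1) (by decide)
  have H5 := H (1, -1) (by decide)
  have H6 := H (-1, 1) (by decide)
  have hr2 : ‖z - g v‖ ^ 2 = (z - g v).re ^ 2 + (z - g v).im ^ 2 := by
    rw [← Complex.normSq_eq_norm_sq, Complex.normSq_apply]; ring
  set a := (z - g v).re
  set b := (z - g v).im
  set r := ‖z - g v‖ with hr
  have hrn : 0 ≤ r := norm_nonneg _
  simp only [t6_re, t6_im, Int.cast_one, Int.cast_zero, Int.cast_neg] at H1 H2 H3 H4 H5 H6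
  set q := Real.sqrt 3 with hq
  have h3 : q ^ 2 = 3 := Real.sq_sqrt (by norm_num)
  clear_value q
  set A := 441 / 400 * h + 1 / 10 * r with hA
  have s1 : 2 * a ≤ A := by linarith
  have s2 : -(2 * a) ≤ A := by linarith
  have s3 : a + q * b ≤ A := by linarith
  have s4 : -(a + q * b) ≤ A := by linarith
  have s5 : 2 * a - (a + q * b) ≤ A := by linarith
  have s6 : -(2 * a - (a + q * b)) ≤ A := by linarith
  have hform : 3 * r ^ 2 = (2 * a) ^ 2 - (2 * a) * (a + q * b) + (a + q * b) ^ 2 := by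
    rw [hr2]; linear_combination (-(b ^ 2)) * h3
  have hA0 : 0 ≤ A := by positivity
  have hle : 3 * r ^ 2 ≤ A ^ 2 := by
    rw [hform]
    exact t6_form _ _ _ s1 s2 s3 s4 s5 s6
  by_contra hcon
  push Not at hcon
  have hAr : A ≤ 1.68 * r := by rw [hA]; nlinarith
  have : A ^ 2 ≤ (1.68 * r) ^ 2 := pow_le_pow_left₀ hA0 hAr 2
  have hrpos : 0 < r := by nlinarith
  nlinarith

end Pool.Agent.K4H72.Til
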