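import Mathlib

/-!
# Barely independent families and splitting

Definitions and lemmas on barely independent families over an infinite set.
-/

open Cardinal Set

namespace Pool.Agent.K4H98.BarelyIndep

/-- `A^0 = A` (written `false`), `A^1 = X \ A` (written `true`). -/
def signed {X : Type} (A : Set X) : Bool → Set X
  | false => A
  | true => Aᶜ

/-- The Boolean combination `⋂ 𝒜^h`, for `h : 𝒜 → 2` (the intersection over `∅` is `X`). -/
def combo {X : Type} (𝒜 : Set (Set X)) (h : 𝒜 → Bool) : Set X :=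
  ⋂ A : 𝒜, signed (A : Set X) (h A)

/-- `I` is a barely independent family over `X`: `I` is an infinite family of subsets of `X`
of size `#X`, every finite Boolean combination of `I` has size `#X`, and every countably
infinite Boolean combination of `I` has size `< #X`. -/
structure BarelyIndependent (X : Type) (I : Set (Set X)) : Prop where
  /-- every member has full size -/
  card_mem : ∀ A ∈ I, #A = #X
  /-- the family is infinite -/
  infinite : I.Infinite
  /-- finite Boolean combinations have full size -/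
  finite_combo : ∀ 𝒜 : Set (Set X), 𝒜 ⊆ I → 𝒜.Finite → ∀ h : 𝒜 → Bool, #(combo 𝒜 h) = #X
  /-- countably infinite Boolean combinations are small -/
  countable_combo : ∀ 𝒜 : Set (Set X), 𝒜 ⊆ I → 𝒜.Countable → 𝒜.Infinite →
    ∀ h : 𝒜 → Bool, #(combo 𝒜 h) < #X

/-- `S` splits `R`: both `R ∩ S` and `R \ S` are infinite. -/
def Splits (S R : Set ℕ) : Prop := (R ∩ S).Infinite ∧ (R \ S).Infinite

/-- The splitting number `𝔰`: the least size of a family `𝒮` of subsets of `ω` such that every
infinite `R ⊆ ω` is split by some member of `𝒮`. -/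
noncomputable def splittingNumber : Cardinal.{0} :=
  sInf {κ | ∃ 𝒮 : Set (Set ℕ), (∀ R : Set ℕ, R.Infinite → ∃ S ∈ 𝒮, Splits S R) ∧ #𝒮 = κ}

theorem exists_not_split {X : Type} (S : X → Set ℕ) (hX : #X < splittingNumber) :
    ∃ R : Set ℕ, R.Infinite ∧ ∀ x, ¬ Splits (S x) R := by
  by_contra hcon
  push Not at hcon
  have h1 : splittingNumber ≤ #(Set.range S) := by
    apply csInf_le'
    refine ⟨Set.range S, ?_, rfl⟩
    intro R hR
    obtain ⟨x, hx⟩ := hcon R hR
    exact ⟨S x, ⟨x, rfl⟩, hx⟩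
  have h2 : #(Set.range S) ≤ #X := mk_range_le
  exact absurd (h1.trans h2) (not_le.mpr hX)

/-- An increasing countable union of full size has members of size beyond any smaller cardinal. -/
theorem exists_large_piece {X : Type} {κ c : Cardinal.{0}} (hκ : ℵ₀ ≤ κ) (hc : c < κ)
    (Y : ℕ → Set X) (hY : Monotone Y) (hU : κ ≤ #(⋃ n, Y n : Set X)) :
    ∃ n, c < #(Y n) := by
  by_contra hcon
  push Not at hcon
  rcases le_or_gt ℵ₀ c with hc0 | hc0
  · have h1 : #(⋃ n, Y n : Set X) ≤ c := by
      calc #(⋃ n, Y n : Set X) ≤ Cardinal.sum (fun n => #(Y n)) := mk_iUnion_le_sum_mk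
        _ ≤ Cardinal.sum (fun _ : ℕ => c) := Cardinal.sum_le_sum _ _ hcon
        _ = ℵ₀ * c := by simp
        _ = c := Cardinal.aleph0_mul_eq hc0
    exact absurd (hU.trans h1) (not_le.mpr hc)
  · obtain ⟨m, rfl⟩ := Cardinal.lt_aleph0.mp hc0
    have hinf : (⋃ n, Y n : Set X).Infinite := by
      rw [← Set.infinite_coe_iff, Cardinal.infinite_iff]
      exact hκ.trans hU
    obtain ⟨t, ht, htc⟩ := hinf.exists_subset_card_eq (m + 1)
    have hd : Directed (· ⊆ ·) Y := hY.directed_le
    obtain ⟨n, hn⟩ := hd.exists_mem_subset_of_finset_subset_biUnion (s := t) ht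
    have h2 : ((m + 1 : ℕ) : Cardinal.{0}) ≤ #(Y n) := by
      rw [← htc]
      have : #(t : Set X) ≤ #(Y n) := Cardinal.mk_le_mk_of_subset hn
      simpa using this
    have h3 := h2.trans (hcon n)
    norm_cast at h3
    omega

/-- For an infinite cardinal `κ` there are targets `μ i`, each reached by some piece of every
increasing countable union of size `κ`, that are not bounded below `κ`. -/
theorem exists_targets {X : Type} (hX : ℵ₀ ≤ #X) :
    ∃ μ : ℕ → Cardinal.{0}, (∀ c, (∀ i, μ i ≤ c) → #X ≤ c) ∧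
      ∀ i, ∀ Y : ℕ → Set X, Monotone Y → #X ≤ #(⋃ n, Y n : Set X) → ∃ n, μ i ≤ #(Y n) := by
  by_cases h : ∀ Y : ℕ → Set X, Monotone Y → #X ≤ #(⋃ n, Y n : Set X) → ∃ n, #X ≤ #(Y n)
  · exact ⟨fun _ => #X, fun c hc => hc 0, fun _ => h⟩
  · push Not at h
    obtain ⟨Z, hZ, hZU, hZs⟩ := h
    refine ⟨fun i => #(Z i), ?_, ?_⟩
    · intro c hc
      by_contra hcc
      push Not at hcc
      obtain ⟨n, hn⟩ := exists_large_piece hX hcc Z hZ hZU
      exact absurd (hc n) (not_le.mpr hn)
    · intro i Y hY hYU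
      obtain ⟨n, hn⟩ := exists_large_piece hX (hZs i) Y hY hYU
      exact ⟨n, hn.le⟩

/-- Points whose sign on `A n` is `g n` for every `n ∈ c`. -/
def C {X : Type} (A : ℕ → Set X) (c : Set ℕ) (g : ℕ → Bool) : Set X :=
  {x | ∀ n ∈ c, x ∈ signed (A n) (g n)}

theorem combo_image {X : Type} {A : ℕ → Set X} (hA : Function.Injective A) (c : Set ℕ)
    (g : ℕ → Bool) :
    combo (A '' c) (fun Z => g (Function.invFun A (Z : Set X))) = C A c g := by
  have hinv := Function.leftInverse_invFun hA
  ext x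
  simp only [combo, C, mem_iInter, mem_ofPred_eq, Subtype.forall]
  constructor
  · intro h n hn
    have := h (A n) ⟨n, hn, rfl⟩
    rwa [hinv n] at this
  · rintro h Z ⟨n, hn, rfl⟩
    rw [hinv n]
    exact h n hn

theorem card_C_finite {X : Type} {I : Set (Set X)} (hI : BarelyIndependent X I)
    {A : ℕ → Set X} (hA : Function.Injective A) (hAI : ∀ n, A n ∈ I) (c : Finset ℕ)
    (g : ℕ → Bool) : #(C A c g) = #X := by
  rw [← combo_image hA]
  apply hI.finite_combo
  · rintro Z ⟨n, _, rfl⟩
    exact hAI n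
  · exact (c.finite_toSet).image A

theorem card_C_infinite {X : Type} {I : Set (Set X)} (hI : BarelyIndependent X I)
    {A : ℕ → Set X} (hA : Function.Injective A) (hAI : ∀ n, A n ∈ I) {c : Set ℕ}
    (hc : c.Infinite) (g : ℕ → Bool) : #(C A c g) < #X := by
  rw [← combo_image hA]
  apply hI.countable_combo
  · rintro Z ⟨n, _, rfl⟩
    exact hAI n
  · exact (Set.to_countable c).image A
  · exact hc.image hA.injOn

theorem fusion {X : Type} (hX : ℵ₀ ≤ #X) {A : ℕ → Set X} {B : Set ℕ} (hB : B.Infinite)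
    (D : Set X) (ε : Bool) (c₀ : Finset ℕ) (g₀ : ℕ → Bool)
    (hD : ∀ c : Finset ℕ, c₀ ⊆ c → ∀ g : ℕ → Bool, (∀ n ∈ c₀, g n = g₀ n) →
      #X ≤ #(C A c g ∩ D : Set X))
    (hBD : ∀ x ∈ D, {n | n ∈ B ∧ x ∉ signed (A n) ε}.Finite) :
    ∃ N : Set ℕ, N.Infinite ∧ ∃ g : ℕ → Bool, #X ≤ #(C A N g) := by
  classical
  obtain ⟨μ, hμ1, hμ2⟩ := exists_targets hX
  set G : ℕ → Bool := fun n => if n ∈ c₀ then g₀ n else ε with hG
  have step : ∀ (c : Finset ℕ) (i : ℕ), ∃ b ∈ B, (∀ n ∈ c ∪ c₀, n < b) ∧
      μ i ≤ #({x | x ∈ C A (c ∪ c₀ : Finset ℕ) G ∩ D ∧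
        ∀ n ∈ B, b ≤ n → x ∈ signed (A n) ε} : Set X) := by
    intro c i
    let Y : ℕ → Set X := fun m => {x | x ∈ C A (c ∪ c₀ : Finset ℕ) G ∩ D ∧
        ∀ n ∈ B, m ≤ n → x ∈ signed (A n) ε}
    have hYm : Monotone Y := by
      intro m m' hmm x hx
      exact ⟨hx.1, fun n hn hmn => hx.2 n hn (hmm.trans hmn)⟩
    have hYU : (⋃ m, Y m : Set X) = C A (c ∪ c₀ : Finset ℕ) G ∩ D := by
      ext x
      simp only [mem_iUnion]
      constructor
      · rintro ⟨m, hm⟩
        exact hm.1
      · intro hx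
        obtain ⟨m, hm⟩ := (hBD x hx.2).bddAbove
        refine ⟨m + 1, hx, ?_⟩
        intro n hn hmn
        by_contra hcon
        have := hm (show n ∈ {n | n ∈ B ∧ x ∉ signed (A n) ε} from ⟨hn, hcon⟩)
        omega
    have hbig : #X ≤ #(⋃ m, Y m : Set X) := by
      rw [hYU]
      apply hD _ Finset.subset_union_right
      intro n hn
      simp [hG, hn]
    obtain ⟨m, hm⟩ := hμ2 i Y hYm hbig
    obtain ⟨b, hbB, hb⟩ := hB.exists_gt (max m ((c ∪ c₀).sup id))
    refine ⟨b, hbB, ?_, ?_⟩
    · intro n hn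
      have h1 : n ≤ (c ∪ c₀).sup id := Finset.le_sup (f := id) hn
      exact lt_of_le_of_lt (h1.trans (le_max_right _ _)) hb
    · refine hm.trans (Cardinal.mk_le_mk_of_subset ?_)
      exact hYm ((le_max_left _ _).trans hb.le)
  choose b hbB hbgt hbμ using step
  let cs : ℕ → Finset ℕ := fun i => Nat.rec ∅ (fun i c => insert (b c i) c) i
  have hcs0 : cs 0 = ∅ := rfl
  have hcs : ∀ i, cs (i + 1) = insert (b (cs i) i) (cs i) := fun i => rfl
  let bs : ℕ → ℕ := fun i => b (cs i) i
  have hmem : ∀ i j, j < i → bs j ∈ cs i := by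
    intro i
    induction i with
    | zero => intro j hj; omega
    | succ i ih =>
      intro j hj
      rw [hcs]
      rcases Nat.lt_succ_iff_lt_or_eq.mp hj with h | h
      · exact Finset.mem_insert_of_mem (ih j h)
      · subst h
        exact Finset.mem_insert_self _ _
  have hmono : StrictMono bs := by
    apply strictMono_nat_of_lt_succ
    intro i
    apply hbgt (cs (i + 1)) (i + 1)
    exact Finset.mem_union_left _ (hmem (i + 1) i (Nat.lt_succ_self i))
  have hGb : ∀ i, G (bs i) = ε := by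
    intro i
    have : bs i ∉ c₀ := by
      intro hcon
      exact absurd (hbgt (cs i) i _ (Finset.mem_union_right _ hcon)) (lt_irrefl _)
    simp [hG, this]
  refine ⟨Set.range bs, Set.infinite_range_of_injective hmono.injective, G, ?_⟩
  apply hμ1
  intro i
  refine (hbμ (cs i) i).trans (Cardinal.mk_le_mk_of_subset ?_)
  rintro x ⟨⟨hx1, hx2⟩, hx3⟩ n ⟨j, rfl⟩
  rcases lt_or_ge j i with hji | hji
  · exact hx1 _ (by
      have := hmem i j hji
      simp [this])
  · rw [hGb]
    exact hx3 _ (hbB _ _) (hmono.monotone hji)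

/-- If there is a barely independent family over an infinite set `X`, then `𝔰 ≤ #X`. -/
theorem splittingNumber_le {X : Type} (hX : ℵ₀ ≤ #X) {I : Set (Set X)}
    (hI : BarelyIndependent X I) : splittingNumber ≤ #X := by
  classical
  by_contra hlt
  push Not at hlt
  let A : ℕ → Set X := fun n => (hI.infinite.natEmbedding I n : Set X)
  have hA : Function.Injective A := fun m n h =>
    (hI.infinite.natEmbedding I).injective (Subtype.ext h)
  have hAI : ∀ n, A n ∈ I := fun n => (hI.infinite.natEmbedding I n).2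
  obtain ⟨B, hB, hBs⟩ := exists_not_split (fun x => {n | x ∈ A n}) hlt
  let D0 : Set X := {x | {n | n ∈ B ∧ x ∉ signed (A n) false}.Finite}
  let D1 : Set X := {x | {n | n ∈ B ∧ x ∉ signed (A n) true}.Finite}
  have hD01 : ∀ x, x ∈ D0 ∨ x ∈ D1 := by
    intro x
    have h := hBs x
    unfold Splits at h
    rw [not_and_or, Set.not_infinite, Set.not_infinite] at h
    rcases h with h | h
    · right
      refine h.subset ?_
      rintro n ⟨hn, hx⟩
      refine ⟨hn, ?_⟩
      simpa [signed] using hx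
    · left
      refine h.subset ?_
      rintro n ⟨hn, hx⟩
      exact ⟨hn, hx⟩
  have finish : ∀ {D : Set X} {ε : Bool} (c₀ : Finset ℕ) (g₀ : ℕ → Bool),
      (∀ c : Finset ℕ, c₀ ⊆ c → ∀ g : ℕ → Bool, (∀ n ∈ c₀, g n = g₀ n) →
        #X ≤ #(C A c g ∩ D : Set X)) →
      (∀ x ∈ D, {n | n ∈ B ∧ x ∉ signed (A n) ε}.Finite) → False := by
    intro D ε c₀ g₀ h1 h2
    obtain ⟨N, hN, g, hg⟩ := fusion hX hB D ε c₀ g₀ h1 h2
    exact absurd (card_C_infinite hI hA hAI hN g) (not_lt.mpr hg)
  by_cases hcase : ∀ (c : Finset ℕ) (g : ℕ → Bool), #X ≤ #(C A c g ∩ D0 : Set X)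
  · exact finish (D := D0) (ε := false) ∅ (fun _ => false) (fun c _ g _ => hcase c g)
      (fun x hx => hx)
  · push Not at hcase
    obtain ⟨c₀, g₀, hsmall⟩ := hcase
    refine finish (D := D1) (ε := true) c₀ g₀ ?_ (fun x hx => hx)
    intro c hc g hg
    by_contra hcon
    push Not at hcon
    have hfull := card_C_finite hI hA hAI c g
    have hsub : C A c g ⊆ (C A c₀ g₀ ∩ D0) ∪ (C A c g ∩ D1) := by
      intro x hx
      rcases hD01 x with h | h
      · left
        refine ⟨?_, h⟩
        intro n hn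
        rw [← hg n hn]
        exact hx n (hc hn)
      · right
        exact ⟨hx, h⟩
    have h1 : #(C A c g) ≤ #(C A c₀ g₀ ∩ D0 : Set X) + #(C A c g ∩ D1 : Set X) :=
      (Cardinal.mk_le_mk_of_subset hsub).trans (Cardinal.mk_union_le _ _)
    have h2 := Cardinal.add_lt_of_lt hX hsmall hcon
    rw [hfull] at h1
    exact absurd h1 (not_le.mpr h2)

/-- Forward direction: few points fail to split a given infinite set. -/
theorem eventually_splitting_of_barely {X : Type} (hX : ℵ₀ < (#X).ord.cof) {I : Set (Set X)}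
    (hI : BarelyIndependent X I) :
    ∃ S : X → Set ℕ, ∀ R : Set ℕ, R.Infinite → #({x | ¬ Splits (S x) R} : Set X) < #X := by
  classical
  have hX0 : ℵ₀ ≤ #X := (hX.trans_le (Ordinal.cof_ord_le _)).le
  let A : ℕ → Set X := fun n => (hI.infinite.natEmbedding I n : Set X)
  have hA : Function.Injective A := fun m n h =>
    (hI.infinite.natEmbedding I).injective (Subtype.ext h)
  have hAI : ∀ n, A n ∈ I := fun n => (hI.infinite.natEmbedding I n).2
  refine ⟨fun x => {n | x ∈ A n}, ?_⟩
  intro R hR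
  let P : ℕ → Set X := fun m => C A {n | n ∈ R ∧ m ≤ n} (fun _ => false)
  let Q : ℕ → Set X := fun m => C A {n | n ∈ R ∧ m ≤ n} (fun _ => true)
  have hRm : ∀ m, ({n | n ∈ R ∧ m ≤ n} : Set ℕ).Infinite := by
    intro m hfin
    apply hR
    refine (hfin.union (Set.finite_lt_nat m)).subset ?_
    intro n hn
    rcases lt_or_ge n m with h | h
    · right; exact h
    · left; exact ⟨hn, h⟩
  have hP : ∀ m, #(P m) < #X := fun m => card_C_infinite hI hA hAI (hRm m) _
  have hQ : ∀ m, #(Q m) < #X := fun m => card_C_infinite hI hA hAI (hRm m) _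
  have hsub : ({x | ¬ Splits ({n | x ∈ A n}) R} : Set X) ⊆ (⋃ m, P m) ∪ (⋃ m, Q m) := by
    intro x hx
    have h : ¬ Splits ({n | x ∈ A n}) R := hx
    unfold Splits at h
    rw [not_and_or, Set.not_infinite, Set.not_infinite] at h
    rcases h with h | h
    · right
      obtain ⟨m, hm⟩ := h.bddAbove
      refine mem_iUnion.mpr ⟨m + 1, ?_⟩
      rintro n ⟨hn, hmn⟩
      show x ∈ (A n)ᶜ
      intro hxn
      have := hm ⟨hn, hxn⟩
      omega
    · left
      obtain ⟨m, hm⟩ := h.bddAbove
      refine mem_iUnion.mpr ⟨m + 1, ?_⟩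
      rintro n ⟨hn, hmn⟩
      show x ∈ A n
      by_contra hxn
      have := hm ⟨hn, hxn⟩
      omega
  have hcount : ∀ (Z : ℕ → Set X), (∀ m, #(Z m) < #X) → #(⋃ m, Z m : Set X) < #X := by
    intro Z hZ
    have h1 : ⨆ m, #(Z m) < #X := Cardinal.iSup_lt_of_lt_cof_ord (by simpa using hX) hZ
    have h2 : #(⋃ m, Z m : Set X) ≤ #ℕ * ⨆ m, #(Z m) := Cardinal.mk_iUnion_le _
    refine lt_of_le_of_lt h2 (Cardinal.mul_lt_of_lt hX0 ?_ h1)
    rw [Cardinal.mk_nat]
    exact hX.trans_le (Ordinal.cof_ord_le _)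
  calc #({x | ¬ Splits ({n | x ∈ A n}) R} : Set X)
      ≤ #((⋃ m, P m) ∪ (⋃ m, Q m) : Set X) := Cardinal.mk_le_mk_of_subset hsub
    _ ≤ #(⋃ m, P m : Set X) + #(⋃ m, Q m : Set X) := Cardinal.mk_union_le _ _
    _ < #X := Cardinal.add_lt_of_lt hX0 (hcount P hP) (hcount Q hQ)

/-- Finite modification of a set of naturals below `m`. -/
def modify (S : Set ℕ) (F : Finset ℕ) (m : ℕ) : Set ℕ :=
  {n | (n < m ∧ n ∈ F) ∨ (m ≤ n ∧ n ∈ S)}

theorem splits_modify {S R : Set ℕ} {F : Finset ℕ} {m : ℕ} :
    Splits S R → Splits (modify S F m) R := by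
  rintro ⟨h1, h2⟩
  constructor
  · intro hfin
    apply h1
    refine (hfin.union (Set.finite_lt_nat m)).subset ?_
    rintro n ⟨hn, hs⟩
    rcases lt_or_ge n m with h | h
    · right; exact h
    · left; exact ⟨hn, Or.inr ⟨h, hs⟩⟩
  · intro hfin
    apply h2
    refine (hfin.union (Set.finite_lt_nat m)).subset ?_
    rintro n ⟨hn, hs⟩
    rcases lt_or_ge n m with h | h
    · right; exact h
    · left
      refine ⟨hn, ?_⟩
      rintro (⟨h3, _⟩ | ⟨_, h4⟩)
      · omega
      · exact hs h4

/-- Backward direction. -/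
theorem barely_of_eventually_splitting {X : Type} (hX : ℵ₀ < #X) (S : X → Set ℕ)
    (hS : ∀ R : Set ℕ, R.Infinite → #({x | ¬ Splits (S x) R} : Set X) < #X) :
    ∃ I : Set (Set X), BarelyIndependent X I := by
  classical
  have hX0 : ℵ₀ ≤ #X := hX.le
  have hcard : #(X × Finset ℕ × ℕ) = #X := by
    rw [Cardinal.mk_prod, Cardinal.mk_prod]
    simp
    rw [Cardinal.mul_aleph0_eq hX0]
  obtain ⟨e⟩ : Nonempty (X ≃ X × Finset ℕ × ℕ) := Cardinal.eq.mp hcard.symm
  let T : X → Set ℕ := fun x => modify (S (e x).1) (e x).2.1 (e x).2.2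
  let A : ℕ → Set X := fun n => {x | n ∈ T x}
  -- every finite pattern is realised on a full-size set
  have hfin : ∀ (c : Finset ℕ) (g : ℕ → Bool), #(C A c g) = #X := by
    intro c g
    apply le_antisymm (Cardinal.mk_set_le _)
    let φ : X → C A c g := fun y =>
      ⟨e.symm (y, c.filter (fun n => g n = false), c.sup id + 1), by
        intro n hn
        have hle : n ≤ c.sup id := Finset.le_sup (f := id) hn
        have hT : n ∈ T (e.symm (y, c.filter (fun n => g n = false), c.sup id + 1)) ↔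
            g n = false := by
          simp only [T, modify, Equiv.apply_symm_apply]
          constructor
          · rintro (⟨_, h⟩ | ⟨h, _⟩)
            · exact (Finset.mem_filter.mp h).2
            · omega
          · intro h
            left
            exact ⟨by omega, Finset.mem_filter.mpr ⟨hn, h⟩⟩
        cases hg : g n with
        | false => exact hT.mpr hg
        | true =>
          show _ ∈ (A n)ᶜ
          intro hcon
          have := hT.mp hcon
          rw [hg] at this
          exact absurd this (by simp)⟩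
    have hφ : Function.Injective φ := by
      intro y y' h
      have h1 := congrArg Subtype.val h
      have h2 := e.symm.injective h1
      exact congrArg Prod.fst h2
    exact Cardinal.mk_le_of_injective hφ
  have hne : ∀ (c : Finset ℕ) (g : ℕ → Bool), (C A c g).Nonempty := by
    intro c g
    rw [← Set.nonempty_coe_sort, ← Cardinal.mk_ne_zero_iff, hfin]
    exact (Cardinal.aleph0_pos.trans hX).ne'
  have hA : Function.Injective A := by
    intro m n h
    by_contra hmn
    obtain ⟨x, hx⟩ := hne {m, n} (fun k => decide (k = n))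
    have h1 := hx m (by simp)
    have h2 := hx n (by simp)
    simp only [decide_true] at h2
    have h1 : x ∈ signed (A m) (decide (m = n)) := h1
    rw [show decide (m = n) = false by simpa using hmn] at h1
    have h3 : x ∈ A m := h1
    have h4 : x ∉ A n := h2
    rw [h] at h3
    exact h4 h3
  -- points whose trace fails to split an infinite set are few
  have hinf : ∀ (c : Set ℕ), c.Infinite → ∀ ε : Bool, #(C A c (fun _ => ε)) < #X := by
    intro c hc ε
    have hsub : C A c (fun _ => ε) ⊆ e ⁻¹' ({x | ¬ Splits (S x) c} ×ˢ Set.univ) := by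
      intro x hx
      refine ⟨?_, mem_univ _⟩
      intro hspl
      have h := splits_modify (F := (e x).2.1) (m := (e x).2.2) hspl
      cases ε with
      | false =>
        apply h.2
        convert Set.finite_empty
        rw [Set.eq_empty_iff_forall_notMem]
        rintro n ⟨hn, hnT⟩
        exact hnT (hx n hn)
      | true =>
        apply h.1
        convert Set.finite_empty
        rw [Set.eq_empty_iff_forall_notMem]
        rintro n ⟨hn, hnT⟩
        exact (hx n hn) hnT
    have h1 : #(C A c (fun _ => ε)) ≤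
        #(({x | ¬ Splits (S x) c} ×ˢ Set.univ : Set (X × Finset ℕ × ℕ))) := by
      refine (Cardinal.mk_le_mk_of_subset hsub).trans ?_
      exact Cardinal.mk_preimage_of_injective _ _ e.injective
    have h2 : #(({x | ¬ Splits (S x) c} ×ˢ Set.univ : Set (X × Finset ℕ × ℕ))) =
        #({x | ¬ Splits (S x) c} : Set X) * ℵ₀ := by
      rw [Cardinal.mk_setProd]
      simp
    rw [h2] at h1
    exact lt_of_le_of_lt h1 (Cardinal.mul_lt_of_lt hX0 (hS c hc) hX)
  refine ⟨Set.range A, ?_, Set.infinite_range_of_injective hA, ?_, ?_⟩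
  · rintro Z ⟨n, rfl⟩
    have h := hfin {n} (fun _ => false)
    have h2 : A n = C A ({n} : Finset ℕ) (fun _ => false) := by
      ext x
      simp [C, signed]
    rw [h2]
    exact h
  · intro 𝒜 h𝒜 hfin𝒜 h
    obtain ⟨c, hc⟩ : ∃ c : Finset ℕ, A '' c = 𝒜 := by
      have : (A ⁻¹' 𝒜).Finite := hfin𝒜.preimage hA.injOn
      refine ⟨this.toFinset, ?_⟩
      rw [Set.Finite.coe_toFinset]
      exact Set.image_preimage_eq_of_subset h𝒜
    subst hc
    have key := hfin c (fun n => if hn : n ∈ c then h ⟨A n, n, hn, rfl⟩ else false)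
    suffices hs : combo (A '' (c : Set ℕ)) h =
        C A c (fun n => if hn : n ∈ c then h ⟨A n, n, hn, rfl⟩ else false) by
      rw [hs]
      exact key
    ext x
    simp only [combo, C, mem_iInter, mem_ofPred_eq, Subtype.forall]
    constructor
    · intro hx n hn
      have hn' : n ∈ c := hn
      rw [dif_pos hn']
      exact hx (A n) ⟨n, hn, rfl⟩
    · rintro hx Z ⟨n, hn, rfl⟩
      have hn' : n ∈ c := hn
      have := hx n hn
      rwa [dif_pos hn'] at this
  · intro 𝒜 h𝒜 _ hinf𝒜 h
    have hN : (A ⁻¹' 𝒜).Infinite := by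
      intro hfinN
      apply hinf𝒜
      rw [← Set.image_preimage_eq_of_subset h𝒜]
      exact hfinN.image A
    let N0 : Set ℕ := {n | ∃ hn : A n ∈ 𝒜, h ⟨A n, hn⟩ = false}
    let N1 : Set ℕ := {n | ∃ hn : A n ∈ 𝒜, h ⟨A n, hn⟩ = true}
    have hN01 : A ⁻¹' 𝒜 ⊆ N0 ∪ N1 := by
      intro n hn
      cases hh : h ⟨A n, hn⟩ with
      | false => left; exact ⟨hn, hh⟩
      | true => right; exact ⟨hn, hh⟩
    have hor : N0.Infinite ∨ N1.Infinite := by
      by_contra hcon
      rw [not_or, Set.not_infinite, Set.not_infinite] at hcon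
      exact hN ((hcon.1.union hcon.2).subset hN01)
    rcases hor with h0 | h1
    · refine lt_of_le_of_lt (Cardinal.mk_le_mk_of_subset ?_) (hinf N0 h0 false)
      intro x hx n hn
      obtain ⟨hn𝒜, hnh⟩ := hn
      have := mem_iInter.mp hx ⟨A n, hn𝒜⟩
      rwa [hnh] at this
    · refine lt_of_le_of_lt (Cardinal.mk_le_mk_of_subset ?_) (hinf N1 h1 true)
      intro x hx n hn
      obtain ⟨hn𝒜, hnh⟩ := hn
      have := mem_iInter.mp hx ⟨A n, hn𝒜⟩
      rwa [hnh] at this

end Pool.Agent.K4H98.BarelyIndep
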