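import Mathlib

/-!
# Subseries numbers: definitions and basic lemmas
-/

open Cardinal Set Filter Topology

namespace Pool.Agent.K4H98.Subseries

/-- The series `∑ c_n` of rationals converges (to some real number). -/
def Converges (c : ℕ → ℚ) : Prop :=
  ∃ L : ℝ, Tendsto (fun N => ∑ n ∈ Finset.range N, (c n : ℝ)) atTop (𝓝 L)

/-- The series `∑ c_n` is conditionally convergent: it converges and `∑ |c_n|` does not. -/
def CondConverges (c : ℕ → ℚ) : Prop := Converges c ∧ ¬ Converges (fun n => |c n|)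

/-- The subseries `∑_X a`: the series `∑_n a_{i_n}`, where `i_0 < i_1 < ...` enumerates `X`. -/
noncomputable def sub (X : Set ℕ) (a : ℕ → ℚ) : ℕ → ℚ := fun n => a (Nat.nth (· ∈ X) n)

/-- `X ⊆ ω` is infinite and co-infinite. -/
def InfCoinf (X : Set ℕ) : Prop := X.Infinite ∧ Xᶜ.Infinite

/-- `𝔰𝔰_c`: least size of a family of infinite co-infinite sets such that every conditionally
convergent rational series has a convergent subseries indexed by a member of the family. -/
noncomputable def ssC : Cardinal.{0} :=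
  sInf {κ | ∃ 𝒳 : Set (Set ℕ), (∀ X ∈ 𝒳, InfCoinf X) ∧
    (∀ a : ℕ → ℚ, CondConverges a → ∃ X ∈ 𝒳, Converges (sub X a)) ∧ #𝒳 = κ}

/-- `𝔰𝔰_cc`: least size of a family of infinite co-infinite sets such that every conditionally
convergent rational series has a conditionally convergent subseries indexed by a member of the
family. -/
noncomputable def ssCC : Cardinal.{0} :=
  sInf {κ | ∃ 𝒳 : Set (Set ℕ), (∀ X ∈ 𝒳, InfCoinf X) ∧
    (∀ a : ℕ → ℚ, CondConverges a → ∃ X ∈ 𝒳, CondConverges (sub X a)) ∧ #𝒳 = κ}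

open Classical in
/-- Partial sums of `a` restricted to `X`. -/
noncomputable def psum (X : Set ℕ) (a : ℕ → ℚ) (m : ℕ) : ℝ :=
  ∑ i ∈ Finset.range m, (if i ∈ X then (a i : ℝ) else 0)

open Classical in
theorem psum_eq_count (X : Set ℕ) (a : ℕ → ℚ) (m : ℕ) :
    psum X a m = ∑ n ∈ Finset.range (Nat.count (· ∈ X) m), (sub X a n : ℝ) := by
  induction m with
  | zero => simp [psum]
  | succ m ih =>
    unfold psum at ih ⊢
    rw [Finset.sum_range_succ, ih]
    by_cases hm : m ∈ X
    · rw [Nat.count_succ, if_pos hm, if_pos hm, Finset.sum_range_succ]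
      congr 1
      unfold sub
      rw [Nat.nth_count hm]
    · rw [Nat.count_succ, if_neg hm, if_neg hm]
      simp

open Classical in
theorem converges_sub_iff {X : Set ℕ} (hX : X.Infinite) (a : ℕ → ℚ) :
    Converges (sub X a) ↔ ∃ L : ℝ, Tendsto (psum X a) atTop (𝓝 L) := by
  have hX' : (Set.ofPred (· ∈ X) : Set ℕ).Infinite := hX
  constructor
  · rintro ⟨L, hL⟩
    refine ⟨L, ?_⟩
    have hc : Tendsto (Nat.count (· ∈ X)) atTop atTop := by
      apply tendsto_atTop_atTop.mpr
      intro n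
      refine ⟨Nat.nth (· ∈ X) n, fun m hm => ?_⟩
      calc n = Nat.count (· ∈ X) (Nat.nth (· ∈ X) n) := (Nat.count_nth_of_infinite hX' n).symm
        _ ≤ Nat.count (· ∈ X) m := Nat.count_monotone _ hm
    have := hL.comp hc
    refine this.congr ?_
    intro m
    exact (psum_eq_count X a m).symm
  · rintro ⟨L, hL⟩
    refine ⟨L, ?_⟩
    have hc : Tendsto (Nat.nth (· ∈ X)) atTop atTop := (Nat.nth_strictMono hX').tendsto_atTop
    have := hL.comp hc
    refine this.congr ?_
    intro m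
    simp only [Function.comp]
    rw [psum_eq_count, Nat.count_nth_of_infinite hX']

theorem converges_nonneg_iff {c : ℕ → ℚ} (h : ∀ n, 0 ≤ c n) :
    Converges c ↔ Summable (fun n => (c n : ℝ)) := by
  have h' : ∀ n, (0 : ℝ) ≤ (c n : ℝ) := fun n => by exact_mod_cast h n
  constructor
  · rintro ⟨L, hL⟩
    exact ((hasSum_iff_tendsto_nat_of_nonneg h' L).mpr hL).summable
  · intro hs
    exact ⟨_, hs.hasSum.tendsto_sum_nat⟩

theorem sub_abs (X : Set ℕ) (a : ℕ → ℚ) :
    (fun n => |sub X a n|) = sub X (fun n => |a n|) := rfl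

theorem psum_add_compl (X : Set ℕ) (a : ℕ → ℚ) (m : ℕ) :
    psum X a m + psum Xᶜ a m = ∑ i ∈ Finset.range m, (a i : ℝ) := by
  unfold psum
  rw [← Finset.sum_add_distrib]
  apply Finset.sum_congr rfl
  intro i _
  by_cases hi : i ∈ X <;> simp [hi]

theorem InfCoinf.compl {X : Set ℕ} (h : InfCoinf X) : InfCoinf Xᶜ := by
  refine ⟨h.2, ?_⟩
  rw [compl_compl]
  exact h.1

theorem converges_compl {X : Set ℕ} (hX : InfCoinf X) {a : ℕ → ℚ} (ha : Converges a)
    (h : Converges (sub X a)) : Converges (sub Xᶜ a) := by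
  rw [converges_sub_iff hX.1] at h
  rw [converges_sub_iff hX.2]
  obtain ⟨L, hL⟩ := h
  obtain ⟨L', hL'⟩ := ha
  refine ⟨L' - L, ?_⟩
  refine (hL'.sub hL).congr ?_
  intro m
  rw [← psum_add_compl X a m]
  ring

/-- The complement trick: a convergent subseries of a conditionally convergent series is
conditionally convergent, or the complementary subseries is. -/
theorem cond_of_converges {X : Set ℕ} (hX : InfCoinf X) {a : ℕ → ℚ} (ha : CondConverges a)
    (h : Converges (sub X a)) : CondConverges (sub X a) ∨ CondConverges (sub Xᶜ a) := by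
  by_contra hcon
  rw [not_or] at hcon
  obtain ⟨h1, h2⟩ := hcon
  have h3 : Converges (fun n => |sub X a n|) := by
    by_contra h4
    exact h1 ⟨h, h4⟩
  have h5 : Converges (fun n => |sub Xᶜ a n|) := by
    by_contra h4
    exact h2 ⟨converges_compl hX ha.1 h, h4⟩
  rw [sub_abs, converges_sub_iff hX.1] at h3
  rw [sub_abs, converges_sub_iff hX.2] at h5
  obtain ⟨L, hL⟩ := h3
  obtain ⟨L', hL'⟩ := h5
  apply ha.2
  refine ⟨L + L', (hL.add hL').congr ?_⟩
  intro m
  exact psum_add_compl X _ m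

theorem converges_sub_of_abs {X : Set ℕ} (hX : X.Infinite) {a : ℕ → ℚ}
    (h : Converges (fun n => |a n|)) : Converges (sub X a) := by
  classical
  rw [converges_nonneg_iff (fun n => abs_nonneg _)] at h
  rw [converges_sub_iff hX]
  have hs : Summable (fun i => (if i ∈ X then (a i : ℝ) else 0)) := by
    apply Summable.of_norm_bounded h
    intro i
    by_cases hi : i ∈ X
    · rw [if_pos hi, Real.norm_eq_abs]
      push_cast
      exact le_rfl
    · simp [hi]
  refine ⟨_, hs.hasSum.tendsto_sum_nat.congr ?_⟩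
  intro m
  unfold psum
  apply Finset.sum_congr rfl
  intro i _
  congr

/-- There is a conditionally convergent rational series. -/
theorem exists_condConverges : ∃ a : ℕ → ℚ, CondConverges a := by
  refine ⟨fun n => (-1) ^ n * (1 / ((n : ℚ) + 1)), ?_, ?_⟩
  · have hanti : Antitone (fun n : ℕ => 1 / ((n : ℝ) + 1)) := by
      intro m n hmn
      apply one_div_le_one_div_of_le
      · positivity
      · have : (m : ℝ) ≤ n := by exact_mod_cast hmn
        linarith
    obtain ⟨L, hL⟩ := hanti.tendsto_alternating_series_of_tendsto_zero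
      tendsto_one_div_add_atTop_nhds_zero_nat
    refine ⟨L, hL.congr ?_⟩
    intro m
    apply Finset.sum_congr rfl
    intro i _
    push_cast
    ring
  · rw [converges_nonneg_iff (fun n => abs_nonneg _)]
    intro h
    have h2 : Summable (fun n : ℕ => 1 / ((n : ℝ) + 1)) := by
      refine h.congr ?_
      intro n
      rw [abs_mul, abs_pow, abs_neg, abs_one, one_pow, one_mul]
      rw [abs_of_nonneg (by positivity)]
      push_cast
      rfl
    have h3 := Real.tendsto_sum_range_one_div_nat_succ_atTop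
    exact not_tendsto_nhds_of_tendsto_atTop h3 _ h2.hasSum.tendsto_sum_nat

theorem tendsto_zero_of_converges {a : ℕ → ℚ} (h : Converges a) :
    Tendsto (fun n => (a n : ℝ)) atTop (𝓝 0) := by
  obtain ⟨L, hL⟩ := h
  have h1 := (hL.comp (tendsto_add_atTop_nat 1)).sub hL
  rw [sub_self] at h1
  refine h1.congr ?_
  intro n
  simp [Finset.sum_range_succ]

/-- Every null sequence has an absolutely summable infinite co-infinite part. -/
theorem exists_sub_converges {a : ℕ → ℚ} (ha : Converges a) :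
    ∃ X : Set ℕ, InfCoinf X ∧ Converges (sub X a) := by
  classical
  have h0 := tendsto_zero_of_converges ha
  have step : ∀ (k m : ℕ), ∃ n, m + 1 < n ∧ |(a n : ℝ)| ≤ (1 / 2) ^ k := by
    intro k m
    have h1 : ∀ᶠ n in atTop, |(a n : ℝ)| < (1 / 2) ^ k := by
      have := (tendsto_order.1 (tendsto_zero_iff_norm_tendsto_zero.mp h0)).2 ((1 / 2) ^ k)
        (by positivity)
      exact this
    obtain ⟨n, hn, hn2⟩ := (h1.and (eventually_gt_atTop (m + 1))).exists
    exact ⟨n, hn2, hn.le⟩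
  choose g hg1 hg2 using step
  let φ : ℕ → ℕ := fun j => Nat.rec (g 0 0) (fun k m => g (k + 1) m) j
  have hφs : ∀ j, φ (j + 1) = g (j + 1) (φ j) := fun j => rfl
  have hφ1 : ∀ j, φ j + 1 < φ (j + 1) := fun j => by rw [hφs]; exact hg1 _ _
  have hφm : StrictMono φ := strictMono_nat_of_lt_succ (fun j => by have := hφ1 j; omega)
  have hφ2 : ∀ j, |(a (φ j) : ℝ)| ≤ (1 / 2) ^ j := by
    intro j
    cases j with
    | zero => exact hg2 0 0
    | succ j => rw [hφs]; exact hg2 _ _
  have hinf : (Set.range φ).Infinite := Set.infinite_range_of_injective hφm.injective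
  have hco : (Set.range φ)ᶜ.Infinite := by
    refine (Set.infinite_range_of_injective (f := fun j => φ j + 1) ?_).mono ?_
    · intro i j hij
      exact hφm.injective (by simpa using hij)
    · rintro _ ⟨j, rfl⟩ ⟨i, hi⟩
      have hi : φ i = φ j + 1 := hi
      have h1 : j < i := by
        by_contra hcon
        have := hφm.monotone (not_lt.mp hcon)
        omega
      have h2 : φ (j + 1) ≤ φ i := hφm.monotone h1
      have := hφ1 j
      omega
  refine ⟨Set.range φ, ⟨hinf, hco⟩, ?_⟩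
  rw [converges_sub_iff hinf]
  have hs1 : Summable (fun j => (a (φ j) : ℝ)) := by
    apply Summable.of_norm_bounded (summable_geometric_two)
    intro j
    exact hφ2 j
  have hs : Summable (fun i => (if i ∈ Set.range φ then (a i : ℝ) else 0)) := by
    have h1 := (hφm.injective.summable_iff
      (f := fun i => (if i ∈ Set.range φ then (a i : ℝ) else 0)) (by
        intro i hi
        simp only [if_neg hi]))
    rw [← h1]
    refine hs1.congr ?_
    intro j
    simp
  refine ⟨_, hs.hasSum.tendsto_sum_nat.congr ?_⟩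
  intro m
  unfold psum
  apply Finset.sum_congr rfl
  intro i _
  congr

/-- The defining family of `ssC` is nonempty, so a lower bound for all witnesses is a lower
bound for `ssC`. -/
theorem le_ssC {κ : Cardinal.{0}}
    (h : ∀ 𝒳 : Set (Set ℕ), (∀ X ∈ 𝒳, InfCoinf X) →
      (∀ a : ℕ → ℚ, CondConverges a → ∃ X ∈ 𝒳, Converges (sub X a)) → κ ≤ #𝒳) : κ ≤ ssC := by
  apply le_csInf
  · refine ⟨#{X | InfCoinf X}, {X | InfCoinf X}, fun X hX => hX, ?_, rfl⟩
    intro a ha
    obtain ⟨X, hX, hc⟩ := exists_sub_converges ha.1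
    exact ⟨X, hX, hc⟩
  · rintro _ ⟨𝒳, h1, h2, rfl⟩
    exact h 𝒳 h1 h2

theorem le_ssCC {κ : Cardinal.{0}}
    (h : ∀ 𝒳 : Set (Set ℕ), (∀ X ∈ 𝒳, InfCoinf X) →
      (∀ a : ℕ → ℚ, CondConverges a → ∃ X ∈ 𝒳, CondConverges (sub X a)) → κ ≤ #𝒳) : κ ≤ ssCC := by
  apply le_csInf
  · refine ⟨#{X | InfCoinf X}, {X | InfCoinf X}, fun X hX => hX, ?_, rfl⟩
    intro a ha
    obtain ⟨X, hX, hc⟩ := exists_sub_converges ha.1
    rcases cond_of_converges hX ha hc with h3 | h3
    · exact ⟨X, hX, h3⟩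
    · exact ⟨Xᶜ, hX.compl, h3⟩
  · rintro _ ⟨𝒳, h1, h2, rfl⟩
    exact h 𝒳 h1 h2

theorem ssC_le_ssCC : ssC ≤ ssCC := by
  apply le_ssCC
  intro 𝒳 h1 h2
  apply csInf_le'
  refine ⟨𝒳, h1, ?_, rfl⟩
  intro a ha
  obtain ⟨X, hX, h3⟩ := h2 a ha
  exact ⟨X, hX, h3.1⟩

/-- From a convergence family of infinite size one gets a conditional-convergence family of the
same size by adding complements. -/
theorem ssCC_le_of_family {𝒳 : Set (Set ℕ)} {κ : Cardinal.{0}} (hκ : #𝒳 ≤ κ) (hinf : ℵ₀ ≤ κ)
    (h1 : ∀ X ∈ 𝒳, InfCoinf X)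
    (h2 : ∀ a : ℕ → ℚ, CondConverges a → ∃ X ∈ 𝒳, Converges (sub X a)) : ssCC ≤ κ := by
  have hle : #(𝒳 ∪ compl '' 𝒳 : Set (Set ℕ)) ≤ κ := by
    calc #(𝒳 ∪ compl '' 𝒳 : Set (Set ℕ)) ≤ #𝒳 + #(compl '' 𝒳 : Set (Set ℕ)) :=
          Cardinal.mk_union_le _ _
      _ ≤ κ + κ := by
          gcongr
          exact Cardinal.mk_image_le.trans hκ
      _ = κ := Cardinal.add_eq_self hinf
  refine le_trans (csInf_le' ⟨𝒳 ∪ compl '' 𝒳, ?_, ?_, rfl⟩) hle
  · rintro X (hX | ⟨Y, hY, rfl⟩)
    · exact h1 X hX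
    · exact (h1 Y hY).compl
  · intro a ha
    obtain ⟨X, hX, hc⟩ := h2 a ha
    rcases cond_of_converges (h1 X hX) ha hc with h3 | h3
    · exact ⟨X, Or.inl hX, h3⟩
    · exact ⟨Xᶜ, Or.inr ⟨X, hX, rfl⟩, h3⟩

/-- Block index of a strictly increasing sequence starting at `0`. -/
theorem exists_index {s : ℕ → ℕ} (hs : StrictMono s) (h0 : s 0 = 0) :
    ∃ idx : ℕ → ℕ, (∀ m, s (idx m) ≤ m ∧ m < s (idx m + 1)) ∧ Tendsto idx atTop atTop := by
  have h : ∀ m, ∃ i, s i ≤ m ∧ m < s (i + 1) := by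
    intro m
    induction m with
    | zero => exact ⟨0, by omega, by have := hs (Nat.lt_succ_self 0); simp at this ⊢; omega⟩
    | succ m ih =>
      obtain ⟨i, hi1, hi2⟩ := ih
      rcases Nat.lt_or_ge (m + 1) (s (i + 1)) with h | h
      · exact ⟨i, by omega, h⟩
      · exact ⟨i + 1, h, by have := hs (Nat.lt_succ_self (i + 1)); simp at this ⊢; omega⟩
  choose idx h1 h2 using h
  refine ⟨idx, fun m => ⟨h1 m, h2 m⟩, ?_⟩
  apply tendsto_atTop_atTop.mpr
  intro n
  refine ⟨s n, fun m hm => ?_⟩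
  by_contra hcon
  have : s (idx m + 1) ≤ s n := hs.monotone (by omega)
  have := h2 m
  omega

theorem index_unique {s : ℕ → ℕ} (hs : StrictMono s) {m i j : ℕ} (hi : s i ≤ m)
    (hi' : m < s (i + 1)) (hj : s j ≤ m) (hj' : m < s (j + 1)) : i = j := by
  rcases lt_trichotomy i j with h | h | h
  · have : s (i + 1) ≤ s j := hs.monotone h
    omega
  · exact h
  · have : s (j + 1) ≤ s i := hs.monotone h
    omega

end Pool.Agent.K4H98.Subseries
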