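import Mathlib
import Pool.Agent.K4H98.Subseries

/-!
# Localization of bounded functions bounds the subseries number from above
-/

open Cardinal Set Filter Topology Pool.Agent.K4H98.Subseries

namespace Pool.Agent.K4H98.SubseriesLoc

/-- The localization number `𝔠^∀_{c,h}`: the least size of a family `𝒮` of slaloms `S` with
`|S(n)| ≤ h(n)` such that every `f ∈ ∏ c(n)` satisfies `f(n) ∈ S(n)` for all but finitely many
`n`, for some `S ∈ 𝒮`. -/
noncomputable def localizationNumber (c h : ℕ → ℕ) : Cardinal.{0} :=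
  sInf {κ | ∃ 𝒮 : Set (ℕ → Finset ℕ), (∀ S ∈ 𝒮, ∀ n, (S n).card ≤ h n) ∧
    (∀ f : ℕ → ℕ, (∀ n, f n < c n) → ∃ S ∈ 𝒮, ∀ᶠ n in atTop, f n ∈ S n) ∧ #𝒮 = κ}

/-- Partial sums. -/
noncomputable def A (a : ℕ → ℚ) (m : ℕ) : ℝ := ∑ j ∈ Finset.range m, (a j : ℝ)

theorem A_succ (a : ℕ → ℚ) (m : ℕ) : A a (m + 1) = A a m + a m := by
  simp [A, Finset.sum_range_succ]

theorem psum_succ_mem {X : Set ℕ} {a : ℕ → ℚ} {m : ℕ} (h : m ∈ X) :
    psum X a (m + 1) = psum X a m + a m := by
  classical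
  simp [psum, Finset.sum_range_succ, h]

theorem psum_succ_notMem {X : Set ℕ} {a : ℕ → ℚ} {m : ℕ} (h : m ∉ X) :
    psum X a (m + 1) = psum X a m := by
  classical
  simp [psum, Finset.sum_range_succ, h]

section blocks

variable {s p q : ℕ → ℕ}

/-- The union of the intervals `[p i, q i)`. -/
def blockSet (p q : ℕ → ℕ) : Set ℕ := {m | ∃ i, p i ≤ m ∧ m < q i}

theorem mem_blockSet (hs : StrictMono s) (hp : ∀ i, s i ≤ p i) (hq : ∀ i, q i < s (i + 1))
    {i m : ℕ} (h1 : s i ≤ m) (h2 : m < s (i + 1)) : m ∈ blockSet p q ↔ p i ≤ m ∧ m < q i := by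
  constructor
  · rintro ⟨j, hj1, hj2⟩
    have : i = j := index_unique hs h1 h2 ((hp j).trans hj1) (hj2.trans (hq j))
    subst this
    exact ⟨hj1, hj2⟩
  · intro h
    exact ⟨i, h⟩

theorem blockSet_infCoinf (hs : StrictMono s) (hp : ∀ i, s i ≤ p i) (hpq : ∀ i, p i < q i)
    (hq : ∀ i, q i < s (i + 1)) : InfCoinf (blockSet p q) := by
  have hpm : StrictMono p := strictMono_nat_of_lt_succ
    (fun i => (hpq i).trans ((hq i).trans_le (hp (i + 1))))
  have hqm : StrictMono q := strictMono_nat_of_lt_succ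
    (fun i => (hq i).trans_le ((hp (i + 1)).trans (hpq (i + 1)).le))
  constructor
  · refine (Set.infinite_range_of_injective hpm.injective).mono ?_
    rintro _ ⟨i, rfl⟩
    exact ⟨i, le_rfl, hpq i⟩
  · refine (Set.infinite_range_of_injective hqm.injective).mono ?_
    rintro _ ⟨i, rfl⟩
    intro hcon
    rw [mem_blockSet hs hp hq ((hp i).trans (hpq i).le) (hq i)] at hcon
    exact absurd hcon.2 (lt_irrefl _)

theorem psum_block (hs : StrictMono s) (hp : ∀ i, s i ≤ p i) (hpq : ∀ i, p i < q i)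
    (hq : ∀ i, q i < s (i + 1)) (a : ℕ → ℚ) (i m : ℕ) (h1 : s i ≤ m) (h2 : m ≤ s (i + 1)) :
    psum (blockSet p q) a m = psum (blockSet p q) a (s i) +
      (A a (min m (q i)) - A a (min m (p i))) := by
  induction m, h1 using Nat.le_induction with
  | base =>
    rw [min_eq_left ((hp i).trans (hpq i).le), min_eq_left (hp i)]
    ring
  | succ m hm ih =>
    have ih := ih (by omega)
    have hmem := mem_blockSet hs hp hq hm (show m < s (i + 1) by omega)
    by_cases hX : m ∈ blockSet p q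
    · rw [psum_succ_mem hX, ih]
      rw [hmem] at hX
      rw [min_eq_left (show m + 1 ≤ q i by omega), min_eq_left (show m ≤ q i by omega),
        min_eq_right (show p i ≤ m + 1 by omega), min_eq_right hX.1, A_succ]
      ring
    · rw [psum_succ_notMem hX, ih]
      rw [hmem, not_and_or, not_le, not_lt] at hX
      rcases hX with h | h
      · have := hpq i
        rw [min_eq_left (show m ≤ q i by omega), min_eq_left (show m ≤ p i by omega),
          min_eq_left (show m + 1 ≤ q i by omega), min_eq_left (show m + 1 ≤ p i by omega)]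
        ring
      · have := hpq i
        rw [min_eq_right (show q i ≤ m by omega), min_eq_right (show p i ≤ m by omega),
          min_eq_right (show q i ≤ m + 1 by omega), min_eq_right (show p i ≤ m + 1 by omega)]

theorem psum_block_start (hs : StrictMono s) (h0 : s 0 = 0) (hp : ∀ i, s i ≤ p i)
    (hpq : ∀ i, p i < q i) (hq : ∀ i, q i < s (i + 1)) (a : ℕ → ℚ) (i : ℕ) :
    psum (blockSet p q) a (s i) = ∑ j ∈ Finset.range i, (A a (q j) - A a (p j)) := by
  induction i with
  | zero => simp [h0, psum]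
  | succ i ih =>
    rw [psum_block hs hp hpq hq a i (s (i + 1)) (hs.monotone (Nat.le_succ i)) le_rfl, ih,
      Finset.sum_range_succ]
    have h1 := hq i
    have h2 := hpq i
    rw [min_eq_right h1.le, min_eq_right (h2.trans h1).le]

theorem converges_block (hs : StrictMono s) (h0 : s 0 = 0) (hp : ∀ i, s i ≤ p i)
    (hpq : ∀ i, p i < q i) (hq : ∀ i, q i < s (i + 1)) {a : ℕ → ℚ} {L : ℝ}
    (ha : Tendsto (A a) atTop (𝓝 L))
    (hsum : Summable (fun i => A a (q i) - A a (p i))) :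
    Converges (sub (blockSet p q) a) := by
  rw [converges_sub_iff (blockSet_infCoinf hs hp hpq hq).1]
  obtain ⟨idx, hidx, hidxt⟩ := exists_index hs h0
  refine ⟨∑' i, (A a (q i) - A a (p i)), ?_⟩
  have e1 : ∀ m, psum (blockSet p q) a m = ∑ j ∈ Finset.range (idx m), (A a (q j) - A a (p j)) +
      (A a (min m (q (idx m))) - A a (min m (p (idx m)))) := by
    intro m
    rw [psum_block hs hp hpq hq a (idx m) m (hidx m).1 (hidx m).2.le,
      psum_block_start hs h0 hp hpq hq]
  have t1 : Tendsto (fun m => ∑ j ∈ Finset.range (idx m), (A a (q j) - A a (p j))) atTop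
      (𝓝 (∑' i, (A a (q i) - A a (p i)))) := hsum.hasSum.tendsto_sum_nat.comp hidxt
  have hsm : Tendsto (fun m => s (idx m)) atTop atTop := hs.tendsto_atTop.comp hidxt
  have t2 : Tendsto (fun m => min m (q (idx m))) atTop atTop := by
    apply tendsto_atTop_mono _ hsm
    intro m
    exact le_min (hidx m).1 ((hp _).trans (hpq _).le)
  have t3 : Tendsto (fun m => min m (p (idx m))) atTop atTop := by
    apply tendsto_atTop_mono _ hsm
    intro m
    exact le_min (hidx m).1 (hp _)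
  have t4 := t1.add ((ha.comp t2).sub (ha.comp t3))
  rw [sub_self, add_zero] at t4
  refine t4.congr ?_
  intro m
  rw [e1 m]
  rfl

end blocks

section slalom

variable (h : ℕ → ℕ)

/-- Number of quantized values at stage `i`. -/
def qn (i : ℕ) : ℕ := 2 ^ (i + 1) + 1

/-- Length of the `i`-th block. -/
def len (i : ℕ) : ℕ := qn i ^ h i + 1

/-- Start of the `i`-th block. -/
def start (i : ℕ) : ℕ := ∑ j ∈ Finset.range i, len h j

/-- The bounding function. -/
def cc (i : ℕ) : ℕ := qn i ^ len h i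

theorem start_succ (i : ℕ) : start h (i + 1) = start h i + len h i := by
  simp [start, Finset.sum_range_succ]

theorem len_pos (i : ℕ) : 0 < len h i := by unfold len; omega

theorem start_strictMono : StrictMono (start h) :=
  strictMono_nat_of_lt_succ (fun i => by rw [start_succ]; have := len_pos h i; omega)

theorem qn_pos (i : ℕ) : 0 < qn i := Nat.succ_pos _

instance (i : ℕ) : NeZero (qn i) := ⟨(qn_pos i).ne'⟩

theorem cc_pos (i : ℕ) : 0 < cc h i := Nat.pow_pos (qn_pos i)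

theorem lt_cc (i : ℕ) : i * h i < cc h i := by
  unfold cc len
  have h1 : (i + 1) * h i < 2 ^ ((i + 1) * h i) := Nat.lt_two_pow_self
  have h2 : 2 ^ ((i + 1) * h i) ≤ qn i ^ h i := by
    rw [pow_mul]
    apply Nat.pow_le_pow_left
    unfold qn
    omega
  have h3 : qn i ^ h i + 1 < 2 ^ (qn i ^ h i + 1) := Nat.lt_two_pow_self
  have h4 : 2 ^ (qn i ^ h i + 1) ≤ qn i ^ (qn i ^ h i + 1) := by
    apply Nat.pow_le_pow_left
    unfold qn
    have : 1 ≤ 2 ^ (i + 1) := Nat.one_le_two_pow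
    omega
  have h5 : i * h i ≤ (i + 1) * h i := by nlinarith
  omega

/-- Code of a quantized block. -/
def code (i : ℕ) : (Fin (len h i) → Fin (qn i)) ≃ Fin (cc h i) := finFunctionFinEquiv

theorem exists_pair (i : ℕ) (T : Finset ℕ) (hT : T.card ≤ h i) :
    ∃ u v : Fin (len h i), u < v ∧ ∀ t ∈ T, ∀ ht : t < cc h i,
      (code h i).symm ⟨t, ht⟩ u = (code h i).symm ⟨t, ht⟩ v := by
  let F : Fin (len h i) → (T → Fin (qn i)) := fun u t =>
    if ht : (t : ℕ) < cc h i then (code h i).symm ⟨t, ht⟩ u else 0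
  have hcard : Fintype.card (T → Fin (qn i)) < Fintype.card (Fin (len h i)) := by
    rw [Fintype.card_fin, Fintype.card_fun, Fintype.card_fin, Fintype.card_coe]
    unfold len
    have : qn i ^ T.card ≤ qn i ^ h i := Nat.pow_le_pow_right (qn_pos i) hT
    omega
  obtain ⟨u, v, huv, hF⟩ := Fintype.exists_ne_map_eq_of_card_lt F hcard
  have key : ∀ t ∈ T, ∀ ht : t < cc h i,
      (code h i).symm ⟨t, ht⟩ u = (code h i).symm ⟨t, ht⟩ v := by
    intro t ht1 ht2
    have := congrFun hF ⟨t, ht1⟩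
    simp only [F] at this
    rwa [dif_pos ht2, dif_pos ht2] at this
  rcases lt_or_gt_of_ne huv with hlt | hlt
  · exact ⟨u, v, hlt, key⟩
  · exact ⟨v, u, hlt, fun t h1 h2 => (key t h1 h2).symm⟩

/-- Quantization of a real number in `[-1, 1]` with precision `2^(-i)`. -/
noncomputable def quant (i : ℕ) (y : ℝ) : Fin (qn i) :=
  if hz : (⌊2 ^ i * y⌋ + 2 ^ i).toNat < qn i then ⟨(⌊2 ^ i * y⌋ + 2 ^ i).toNat, hz⟩ else 0

theorem quant_eq {i : ℕ} {y y' : ℝ} (hy : |y| ≤ 1) (hy' : |y'| ≤ 1)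
    (hq : quant i y = quant i y') : |y - y'| ≤ (1 / 2) ^ i := by
  have aux : ∀ y : ℝ, |y| ≤ 1 → 0 ≤ ⌊2 ^ i * y⌋ + 2 ^ i ∧
      (⌊2 ^ i * y⌋ + 2 ^ i).toNat < qn i := by
    intro y hy
    obtain ⟨h1, h2⟩ := abs_le.mp hy
    have h0 : (0 : ℝ) < 2 ^ i := by positivity
    have h3 : (-(2 ^ i : ℤ)) ≤ ⌊2 ^ i * y⌋ := by
      rw [Int.le_floor]
      push_cast
      nlinarith
    have h4 : ⌊2 ^ i * y⌋ ≤ (2 ^ i : ℤ) := by
      have : (⌊2 ^ i * y⌋ : ℝ) ≤ 2 ^ i := (Int.floor_le _).trans (by nlinarith)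
      exact_mod_cast this
    refine ⟨by linarith, ?_⟩
    have h5 : ⌊2 ^ i * y⌋ + 2 ^ i ≤ (2 ^ (i + 1) : ℤ) := by
      rw [pow_succ]
      linarith
    unfold qn
    have h6 : (⌊2 ^ i * y⌋ + 2 ^ i).toNat ≤ 2 ^ (i + 1) := by
      rw [Int.toNat_le]
      exact_mod_cast h5
    omega
  obtain ⟨a1, a2⟩ := aux y hy
  obtain ⟨b1, b2⟩ := aux y' hy'
  unfold quant at hq
  rw [dif_pos a2, dif_pos b2] at hq
  have h1 := congrArg Fin.val hq
  simp only at h1
  have h2 : ⌊2 ^ i * y⌋ = ⌊2 ^ i * y'⌋ := by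
    have : (((⌊2 ^ i * y⌋ + 2 ^ i).toNat : ℕ) : ℤ) = ((⌊2 ^ i * y'⌋ + 2 ^ i).toNat : ℕ) := by
      rw [h1]
    rw [Int.toNat_of_nonneg a1, Int.toNat_of_nonneg b1] at this
    linarith
  have h3 := Int.abs_sub_lt_one_of_floor_eq_floor h2
  have h0 : (0 : ℝ) < 2 ^ i := by positivity
  rw [← mul_sub, abs_mul, abs_of_pos h0] at h3
  have h4 : (1 / 2 : ℝ) ^ i * 2 ^ i = 1 := by
    rw [← mul_pow]
    norm_num
  have h5 : (0 : ℝ) < (1 / 2 : ℝ) ^ i := by positivity
  nlinarith [mul_lt_mul_of_pos_left h3 h5]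

/-- The chosen pair of positions. -/
theorem exists_pairs (S : ℕ → Finset ℕ) (hS : ∀ i, (S i).card ≤ h i) :
    ∃ u v : ∀ i, Fin (len h i), ∀ i, u i < v i ∧ ∀ t ∈ S i, ∀ ht : t < cc h i,
      (code h i).symm ⟨t, ht⟩ (u i) = (code h i).symm ⟨t, ht⟩ (v i) := by
  choose u v huv using fun i => exists_pair h i (S i) (hS i)
  exact ⟨u, v, huv⟩

/-- One slalom gives one infinite co-infinite set that handles all series whose code is
captured. -/
theorem exists_set (S : ℕ → Finset ℕ) (hS : ∀ i, (S i).card ≤ h i) :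
    ∃ X : Set ℕ, InfCoinf X ∧ ∀ (a : ℕ → ℚ) (L : ℝ), Tendsto (A a) atTop (𝓝 L) →
      (∀ᶠ i in atTop, ((code h i (fun u => quant i (A a (start h i + u) - L)) : ℕ)) ∈ S i) →
      Converges (sub X a) := by
  obtain ⟨u, v, huv⟩ := exists_pairs h S hS
  have hs := start_strictMono h
  have h0 : start h 0 = 0 := by simp [start]
  have hp : ∀ i, start h i ≤ start h i + (u i : ℕ) := fun i => Nat.le_add_right _ _
  have hpq : ∀ i, start h i + (u i : ℕ) < start h i + (v i : ℕ) := fun i => by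
    have : (u i : ℕ) < v i := (huv i).1
    omega
  have hq : ∀ i, start h i + (v i : ℕ) < start h (i + 1) := fun i => by
    rw [start_succ]
    have := (v i).2
    omega
  refine ⟨_, blockSet_infCoinf hs hp hpq hq, ?_⟩
  intro a L ha hcap
  apply converges_block hs h0 hp hpq hq ha
  have hb : ∀ᶠ m in atTop, |A a m - L| ≤ 1 := by
    have h1 := (tendsto_sub_nhds_zero_iff.mpr ha).abs
    rw [abs_zero] at h1
    have h2 := (tendsto_order.1 h1).2 1 one_pos
    exact h2.mono (fun m hm => hm.le)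
  obtain ⟨M, hM⟩ := eventually_atTop.mp hb
  apply Summable.of_norm_bounded_eventually_nat (g := fun i => (1 / 2 : ℝ) ^ i)
    (summable_geometric_two)
  filter_upwards [hcap, eventually_ge_atTop M] with i hi hiM
  have hMs : ∀ x : ℕ, M ≤ start h i + x := fun x =>
    hiM.trans ((hs.le_apply (x := i)).trans (Nat.le_add_right _ _))
  have h3 := (huv i).2 _ hi (Fin.is_lt _)
  simp only [Fin.eta, Equiv.symm_apply_apply] at h3
  have h4 := quant_eq (hM _ (hMs _)) (hM _ (hMs _)) h3
  rw [Real.norm_eq_abs, abs_sub_comm]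
  have e : A a (start h i + (u i : ℕ)) - A a (start h i + (v i : ℕ)) =
      (A a (start h i + (u i : ℕ)) - L) - (A a (start h i + (v i : ℕ)) - L) := by ring
  rw [e]
  exact h4

/-- Localizing families are infinite. -/
theorem infinite_of_localizing (𝒮 : Set (ℕ → Finset ℕ)) (h1 : ∀ S ∈ 𝒮, ∀ n, (S n).card ≤ h n)
    (h2 : ∀ f : ℕ → ℕ, (∀ n, f n < cc h n) → ∃ S ∈ 𝒮, ∀ᶠ n in atTop, f n ∈ S n) :
    𝒮.Infinite := by
  classical
  intro hfin
  let F := hfin.toFinset
  have hex : ∀ n, F.card ≤ n → ∃ t < cc h n, ∀ S ∈ 𝒮, t ∉ S n := by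
    intro n hn
    have hcard : (F.biUnion (fun S => S n)).card < (Finset.range (cc h n)).card := by
      rw [Finset.card_range]
      calc (F.biUnion (fun S => S n)).card ≤ ∑ S ∈ F, (S n).card := Finset.card_biUnion_le
        _ ≤ ∑ _S ∈ F, h n := Finset.sum_le_sum
            (fun S hS => h1 S (hfin.mem_toFinset.mp hS) n)
        _ = F.card * h n := by simp
        _ ≤ n * h n := Nat.mul_le_mul_right _ hn
        _ < cc h n := lt_cc h n
    obtain ⟨t, ht1, ht2⟩ := Finset.exists_mem_notMem_of_card_lt_card hcard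
    refine ⟨t, Finset.mem_range.mp ht1, fun S hS hcon => ht2 ?_⟩
    exact Finset.mem_biUnion.mpr ⟨S, hfin.mem_toFinset.mpr hS, hcon⟩
  let f : ℕ → ℕ := fun n => if hn : F.card ≤ n then (hex n hn).choose else 0
  obtain ⟨S, hS, hf⟩ := h2 f (by
    intro n
    by_cases hn : F.card ≤ n
    · simp only [f, dif_pos hn]
      exact (hex n hn).choose_spec.1
    · simp only [f, dif_neg hn]
      exact cc_pos h n)
  obtain ⟨n, hn1, hn2⟩ := (hf.and (eventually_ge_atTop F.card)).exists
  simp only [f, dif_pos hn2] at hn1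
  exact (hex n hn2).choose_spec.2 S hS hn1

/-- The subseries number is at most the localization number for all large enough bounds. -/
theorem ssCC_le_localizationNumber (hh : ∀ n, 1 ≤ h n) (c' : ℕ → ℕ) (hc' : ∀ n, cc h n ≤ c' n) :
    ssCC ≤ localizationNumber c' h := by
  unfold localizationNumber
  apply le_csInf
  · refine ⟨_, {S | ∀ n, (S n).card ≤ h n}, fun S hS => hS, ?_, rfl⟩
    intro f _
    refine ⟨fun n => {f n}, fun n => ?_, ?_⟩
    · simpa using hh n
    · simp
  · rintro _ ⟨𝒮, h1, h2', rfl⟩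
    have h2 : ∀ f : ℕ → ℕ, (∀ n, f n < cc h n) → ∃ S ∈ 𝒮, ∀ᶠ n in atTop, f n ∈ S n :=
      fun f hf => h2' f (fun n => (hf n).trans_le (hc' n))
    choose! X hX1 hX2 using fun S hS => exists_set h S (h1 S hS)
    have hinf : ℵ₀ ≤ #𝒮 := by
      have := infinite_of_localizing h 𝒮 h1 h2
      rw [← Cardinal.infinite_iff]
      exact this.to_subtype
    refine ssCC_le_of_family (𝒳 := X '' 𝒮) Cardinal.mk_image_le hinf ?_ ?_
    · rintro _ ⟨S, hS, rfl⟩
      exact hX1 S hS
    · rintro a ⟨⟨L, hL⟩, _⟩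
      obtain ⟨S, hS, hf⟩ := h2 (fun i => (code h i (fun u => quant i (A a (start h i + u) - L)) : ℕ))
        (fun i => Fin.is_lt _)
      exact ⟨X S, ⟨S, hS, rfl⟩, hX2 S hS a L hL hf⟩

end slalom

end Pool.Agent.K4H98.SubseriesLoc
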