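import Mathlib
import Pool.Agent.K4H98.Subseries

/-!
# Random signs: `min {𝔡, cov(𝒩)} ≤ 𝔰𝔰_c`
-/

open Cardinal Set Filter Topology MeasureTheory Pool.Agent.K4H98.Subseries

namespace Pool.Agent.K4H98.SubseriesNull

/-- The fair coin-tossing measure on the Cantor space `2^ω`. -/
noncomputable def coin : Measure (ℕ → Bool) :=
  Measure.infinitePi (fun _ : ℕ => (PMF.uniformOfFintype Bool).toMeasure)

/-- `cov(𝒩)`: the least number of null subsets of the Cantor space (with the coin-tossing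
measure) whose union is the whole space. -/
noncomputable def covNull : Cardinal.{0} :=
  sInf {κ | ∃ 𝒩 : Set (Set (ℕ → Bool)), (∀ N ∈ 𝒩, coin N = 0) ∧ (⋃₀ 𝒩 = Set.univ) ∧ #𝒩 = κ}

/-- The dominating number `𝔡`. -/
noncomputable def dominatingNumber : Cardinal.{0} :=
  sInf {κ | ∃ D : Set (ℕ → ℕ), (∀ f : ℕ → ℕ, ∃ g ∈ D, ∀ᶠ n in atTop, f n ≤ g n) ∧ #D = κ}

instance : IsProbabilityMeasure coin := by
  unfold coin
  infer_instance

/-- `2^{-m}` mass of a pattern on `m` coordinates. -/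
theorem coin_box (M : Finset ℕ) (p : ℕ → Bool) :
    coin {ε | ∀ i ∈ M, ε i = p i} = (1 / 2) ^ M.card := by
  have h : ({ε | ∀ i ∈ M, ε i = p i} : Set (ℕ → Bool)) = Set.pi (M : Set ℕ) (fun i => {p i}) := by
    ext ε
    simp [Set.mem_pi]
  rw [h]
  unfold coin
  rw [Measure.infinitePi_pi _ (fun i _ => MeasurableSet.of_discrete)]
  have h2 : ∀ i ∈ M, ((PMF.uniformOfFintype Bool).toMeasure {p i}) = 1 / 2 := by
    intro i _
    rw [PMF.toMeasure_apply_singleton _ _ MeasurableSet.of_discrete]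
    simp
  rw [Finset.prod_congr rfl h2]
  simp

/-- Bound for the central binomial coefficient. -/
theorem centralBinom_sq (n : ℕ) : n.centralBinom ^ 2 * (2 * n + 1) ≤ 16 ^ n := by
  induction n with
  | zero => simp
  | succ n ih =>
    have h := Nat.succ_mul_centralBinom_succ n
    have h1 : (n + 1) ^ 2 * ((n + 1).centralBinom ^ 2 * (2 * (n + 1) + 1)) ≤
        (n + 1) ^ 2 * 16 ^ (n + 1) := by
      have e1 : (n + 1) ^ 2 * ((n + 1).centralBinom ^ 2 * (2 * (n + 1) + 1)) =
          (2 * (2 * n + 1) * n.centralBinom) ^ 2 * (2 * n + 3) := by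
        rw [← h]
        ring
      rw [e1]
      have e2 : (2 * (2 * n + 1) * n.centralBinom) ^ 2 * (2 * n + 3) =
          (n.centralBinom ^ 2 * (2 * n + 1)) * (4 * (2 * n + 1) * (2 * n + 3)) := by ring
      rw [e2]
      calc (n.centralBinom ^ 2 * (2 * n + 1)) * (4 * (2 * n + 1) * (2 * n + 3))
          ≤ 16 ^ n * (4 * (2 * n + 1) * (2 * n + 3)) := Nat.mul_le_mul_right _ ih
        _ ≤ 16 ^ n * (16 * (n + 1) ^ 2) := by
            apply Nat.mul_le_mul_left
            nlinarith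
        _ = (n + 1) ^ 2 * 16 ^ (n + 1) := by ring
    exact Nat.le_of_mul_le_mul_left h1 (by positivity)

theorem choose_half_sq (m : ℕ) : (m.choose (m / 2)) ^ 2 * (m + 1) ≤ 4 ^ m := by
  rcases Nat.even_or_odd' m with ⟨n, rfl | rfl⟩
  · have h := centralBinom_sq n
    rw [Nat.centralBinom_eq_two_mul_choose] at h
    have e1 : 2 * n / 2 = n := by omega
    rw [e1, pow_mul]
    norm_num
    exact h
  · have h := centralBinom_sq (n + 1)
    have e1 : (2 * n + 1) / 2 = n := by omega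
    rw [e1]
    have e2 : (n + 1).centralBinom = 2 * (2 * n + 1).choose n := by
      rw [Nat.centralBinom_eq_two_mul_choose]
      have : 2 * (n + 1) = (2 * n + 1) + 1 := by ring
      rw [this, Nat.choose_succ_succ]
      have h3 : (2 * n + 1).choose (n + 1) = (2 * n + 1).choose n := by
        rw [← Nat.choose_symm_half]
      rw [Nat.succ_eq_add_one, h3]
      ring
    rw [e2] at h
    have e3 : (4 : ℕ) ^ (2 * n + 1) * 4 = 16 ^ (n + 1) := by
      rw [← pow_succ, show 2 * n + 1 + 1 = 2 * (n + 1) by ring, pow_mul]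
      norm_num
    nlinarith

/-- Anti-concentration, counting form: the number of subsets `T` of an `m`-element set with
`| 2|T| - m | ≤ k` is at most `(k+1) * binom(m, m/2)`. -/
theorem card_patterns (M : Finset ℕ) (k : ℕ) :
    (M.powerset.filter (fun T => 2 * T.card ≤ M.card + k ∧ M.card ≤ 2 * T.card + k)).card ≤
      (k + 1) * M.card.choose (M.card / 2) := by
  classical
  set m := M.card with hm
  have hsub : M.powerset.filter (fun T => 2 * T.card ≤ m + k ∧ m ≤ 2 * T.card + k) ⊆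
      (Finset.Icc ((m - k + 1) / 2) ((m + k) / 2)).biUnion (fun j => M.powersetCard j) := by
    intro T hT
    rw [Finset.mem_filter, Finset.mem_powerset] at hT
    rw [Finset.mem_biUnion]
    refine ⟨T.card, ?_, ?_⟩
    · rw [Finset.mem_Icc]
      omega
    · rw [Finset.mem_powersetCard]
      exact ⟨hT.1, rfl⟩
  calc _ ≤ ((Finset.Icc ((m - k + 1) / 2) ((m + k) / 2)).biUnion
        (fun j => M.powersetCard j)).card := Finset.card_le_card hsub
    _ ≤ ∑ j ∈ Finset.Icc ((m - k + 1) / 2) ((m + k) / 2), (M.powersetCard j).card :=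
        Finset.card_biUnion_le
    _ ≤ ∑ _j ∈ Finset.Icc ((m - k + 1) / 2) ((m + k) / 2), m.choose (m / 2) := by
        apply Finset.sum_le_sum
        intro j _
        rw [Finset.card_powersetCard]
        exact Nat.choose_le_middle _ _
    _ ≤ (k + 1) * m.choose (m / 2) := by
        rw [Finset.sum_const, Nat.card_Icc, smul_eq_mul]
        apply Nat.mul_le_mul_right
        omega

/-- Signed sum of coins over a finite set `M` relative to a pattern `σ`. -/
def ssum (M : Finset ℕ) (σ ε : ℕ → Bool) : ℤ := ∑ i ∈ M, (if ε i = σ i then 1 else -1)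

theorem ssum_eq (M : Finset ℕ) (σ ε : ℕ → Bool) :
    ssum M σ ε = 2 * ((M.filter (fun i => ε i = σ i)).card : ℤ) - M.card := by
  unfold ssum
  rw [Finset.sum_ite]
  have h := Finset.card_filter_add_card_filter_not (s := M) (fun i => ε i = σ i)
  simp only [Finset.sum_const, nsmul_eq_mul]
  have h' : ((M.filter (fun i => ε i = σ i)).card : ℤ) +
      (M.filter (fun i => ¬ ε i = σ i)).card = M.card := by exact_mod_cast h
  linarith

theorem coin_ssum (M : Finset ℕ) (σ : ℕ → Bool) (k : ℕ) (hk : (k + 1) ^ 4 ≤ M.card) :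
    (k + 1 : ENNReal) * coin {ε | |ssum M σ ε| ≤ k} ≤ 1 := by
  classical
  set m := M.card with hm
  set 𝒯 := M.powerset.filter (fun T => 2 * T.card ≤ m + k ∧ m ≤ 2 * T.card + k) with h𝒯
  have hsub : ({ε | |ssum M σ ε| ≤ k} : Set (ℕ → Bool)) ⊆
      ⋃ T ∈ 𝒯, {ε | ∀ i ∈ M, ε i = (if i ∈ T then σ i else !(σ i))} := by
    intro ε hε
    have hε : |ssum M σ ε| ≤ k := hε
    rw [ssum_eq, abs_le] at hε
    simp only [mem_iUnion]
    refine ⟨M.filter (fun i => ε i = σ i), ?_, ?_⟩
    · rw [h𝒯, Finset.mem_filter, Finset.mem_powerset]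
      refine ⟨Finset.filter_subset _ _, ?_, ?_⟩
      · omega
      · omega
    · intro i hi
      by_cases h : ε i = σ i
      · simp [hi, h]
      · simp only [Finset.mem_filter, hi, h, and_false, if_false]
        revert h
        cases ε i <;> cases σ i <;> simp
  have h1 : coin {ε | |ssum M σ ε| ≤ k} ≤ 𝒯.card * (1 / 2) ^ m := by
    calc coin {ε | |ssum M σ ε| ≤ k}
        ≤ coin (⋃ T ∈ 𝒯, {ε | ∀ i ∈ M, ε i = (if i ∈ T then σ i else !(σ i))}) :=
          measure_mono hsub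
      _ ≤ ∑ T ∈ 𝒯, coin {ε | ∀ i ∈ M, ε i = (if i ∈ T then σ i else !(σ i))} :=
          measure_biUnion_finset_le _ _
      _ = ∑ T ∈ 𝒯, (1 / 2) ^ m := by
          apply Finset.sum_congr rfl
          intro T _
          exact coin_box M _
      _ = 𝒯.card * (1 / 2) ^ m := by simp
  have h2 : (k + 1) * 𝒯.card ≤ 2 ^ m := by
    have h3 := card_patterns M k
    have h4 := choose_half_sq m
    have h5 : ((k + 1) ^ 2 * m.choose (m / 2)) ^ 2 ≤ (2 ^ m) ^ 2 := by
      calc ((k + 1) ^ 2 * m.choose (m / 2)) ^ 2 = (m.choose (m / 2)) ^ 2 * (k + 1) ^ 4 := by ring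
        _ ≤ (m.choose (m / 2)) ^ 2 * (m + 1) := Nat.mul_le_mul_left _ (by omega)
        _ ≤ 4 ^ m := h4
        _ = (2 ^ m) ^ 2 := by rw [← pow_mul, mul_comm, pow_mul]; norm_num
    have h6 : (k + 1) ^ 2 * m.choose (m / 2) ≤ 2 ^ m :=
      (Nat.pow_le_pow_iff_left (by norm_num)).mp h5
    calc (k + 1) * 𝒯.card ≤ (k + 1) * ((k + 1) * m.choose (m / 2)) := Nat.mul_le_mul_left _ h3
      _ = (k + 1) ^ 2 * m.choose (m / 2) := by ring
      _ ≤ 2 ^ m := h6
  calc (k + 1 : ENNReal) * coin {ε | |ssum M σ ε| ≤ k}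
      ≤ (k + 1 : ENNReal) * (𝒯.card * (1 / 2) ^ m) := by gcongr
    _ = (((k + 1) * 𝒯.card : ℕ) : ENNReal) * (1 / 2) ^ m := by
        push_cast
        ring
    _ ≤ ((2 ^ m : ℕ) : ENNReal) * (1 / 2) ^ m := by
        gcongr
    _ = 1 := by
        push_cast
        rw [← mul_pow, one_div, ENNReal.mul_inv_cancel (by norm_num) (by norm_num), one_pow]

section growth

theorem exists_count_bound {N : Set ℕ} (hN : N.Infinite) [DecidablePred (· ∈ N)] :
    ∃ g : ℕ → ℕ, Monotone g ∧ ∀ n m, g n ≤ m →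
      (n + 1) ^ 4 ≤ ((Finset.Ico n m).filter (· ∈ N)).card := by
  have h1 : ∀ n, ∃ m₀, ∀ m, m₀ ≤ m → (n + 1) ^ 4 ≤ ((Finset.Ico n m).filter (· ∈ N)).card := by
    intro n
    have hinf : (N \ Set.Iio n).Infinite := hN.sdiff (Set.finite_Iio n)
    obtain ⟨t, ht, htc⟩ := hinf.exists_subset_card_eq ((n + 1) ^ 4)
    refine ⟨t.sup id + 1, fun m hm => ?_⟩
    rw [← htc]
    apply Finset.card_le_card
    intro x hx
    have hx2 := ht hx
    have hx3 : x ≤ t.sup id := Finset.le_sup (f := id) hx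
    rw [Finset.mem_filter, Finset.mem_Ico]
    refine ⟨⟨?_, by omega⟩, hx2.1⟩
    have := hx2.2
    rw [Set.mem_Iio, not_lt] at this
    exact this
  choose m₀ hm₀ using h1
  refine ⟨fun n => ∑ i ∈ Finset.range (n + 1), m₀ i, ?_, ?_⟩
  · intro a b hab
    apply Finset.sum_le_sum_of_subset
    apply Finset.range_mono
    omega
  · intro n m hm
    apply hm₀
    refine le_trans ?_ hm
    exact Finset.single_le_sum (f := m₀) (fun _ _ => Nat.zero_le _) (Finset.self_mem_range_succ n)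

theorem exists_not_dominated {α : Type} {𝒳 : Set α} (G : α → (ℕ → ℕ))
    (h : #𝒳 < dominatingNumber) : ∃ F : ℕ → ℕ, ∀ X ∈ 𝒳, ∃ᶠ n in atTop, G X n < F n := by
  by_contra hcon
  push Not at hcon
  have h1 : dominatingNumber ≤ #(G '' 𝒳) := by
    apply csInf_le'
    refine ⟨G '' 𝒳, ?_, rfl⟩
    intro f
    obtain ⟨X, hX, hf⟩ := hcon f
    exact ⟨G X, ⟨X, hX, rfl⟩, by simpa [Filter.not_frequently] using hf⟩
  have h2 : #(G '' 𝒳) ≤ #𝒳 := Cardinal.mk_image_le
  exact absurd (h1.trans h2) (not_le.mpr h)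

open Classical in
theorem exists_blocks {𝒳 : Set (Set ℕ)} (N : Set ℕ → Set ℕ) (hN : ∀ X ∈ 𝒳, (N X).Infinite)
    (h : #𝒳 < dominatingNumber) : ∃ s : ℕ → ℕ, StrictMono s ∧ s 0 = 0 ∧ ∀ X ∈ 𝒳,
      ∃ᶠ k in atTop, (k + 1) ^ 4 ≤ ((Finset.Ico (s k) (s (k + 1))).filter (· ∈ N X)).card := by
  choose! g hg1 hg2 using fun X hX => exists_count_bound (hN X hX)
  obtain ⟨F₀, hF₀⟩ := exists_not_dominated (fun X n => g X (g X n)) h
  let F : ℕ → ℕ := fun n => ∑ i ∈ Finset.range (n + 1), (F₀ i + 1)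
  have hF1 : ∀ n, F (n + 1) = F n + (F₀ (n + 1) + 1) := fun n => Finset.sum_range_succ _ _
  have hFm : StrictMono F := strictMono_nat_of_lt_succ (fun n => by rw [hF1]; omega)
  have hF2 : ∀ n, F₀ n + 1 ≤ F n := fun n =>
    Finset.single_le_sum (f := fun i => F₀ i + 1) (fun _ _ => Nat.zero_le _)
      (Finset.self_mem_range_succ n)
  have hF3 : ∀ n, n + 1 ≤ F n := by
    intro n
    induction n with
    | zero => have := hF2 0; omega
    | succ n ih => rw [hF1]; omega
  let s : ℕ → ℕ := fun k => F^[k] 0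
  have hs0 : s 0 = 0 := rfl
  have hss : ∀ k, s (k + 1) = F (s k) := fun k => Function.iterate_succ_apply' F k 0
  have hsm : StrictMono s := strictMono_nat_of_lt_succ (fun k => by
    rw [hss]
    have := hF3 (s k)
    omega)
  refine ⟨s, hsm, hs0, ?_⟩
  intro X hX
  by_contra hcon
  rw [Filter.not_frequently] at hcon
  obtain ⟨K, hK⟩ := eventually_atTop.mp hcon
  have hlt : ∀ k, K ≤ k → s (k + 1) < g X (s k) := by
    intro k hk
    by_contra h1
    push Not at h1
    apply hK k hk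
    have h2 := hg2 X hX (s k) (s (k + 1)) h1
    refine le_trans (Nat.pow_le_pow_left ?_ 4) h2
    have : k ≤ s k := hsm.le_apply
    omega
  obtain ⟨idx, hidx, _⟩ := exists_index hsm hs0
  have hdom : ∀ n, s K ≤ n → F₀ n ≤ g X (g X n) := by
    intro n hn
    obtain ⟨h1, h2⟩ := hidx n
    have hk : K ≤ idx n := by
      by_contra hc
      have : s (idx n + 1) ≤ s K := hsm.monotone (by omega)
      omega
    have h3 : F₀ n < F n := hF2 n
    have h4 : F n ≤ F (s (idx n + 1)) := hFm.monotone h2.le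
    rw [← hss] at h4
    have h5 := hlt (idx n + 1) (by omega)
    have h6 := hlt (idx n) hk
    have h7 : g X (s (idx n + 1)) ≤ g X (g X (s (idx n))) := hg1 X hX h6.le
    have h8 : g X (g X (s (idx n))) ≤ g X (g X n) := hg1 X hX (hg1 X hX h1)
    omega
  obtain ⟨n, hn1, hn2⟩ := ((hF₀ X hX).and_eventually (eventually_ge_atTop (s K))).exists
  have := hdom n hn2
  omega

end growth

section parts

/-- Boundary positions of `X`: positions where membership changes (with `-1 ∉ X`). -/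
def bd (X : Set ℕ) : Set ℕ := {m | ¬ (m ∈ X ↔ (0 < m ∧ m - 1 ∈ X))}

theorem bd_infinite {X : Set ℕ} (hX : InfCoinf X) : (bd X).Infinite := by
  intro hfin
  obtain ⟨M, hM⟩ := hfin.bddAbove
  have hstep : ∀ m, M < m → (m ∈ X ↔ m - 1 ∈ X) := by
    intro m hm
    by_contra hcon
    have : m ∈ bd X := by
      intro h
      apply hcon
      rw [h]
      constructor
      · rintro ⟨_, h2⟩; exact h2
      · intro h2; exact ⟨by omega, h2⟩
    have := hM this
    omega
  have hconst : ∀ j, (M + j ∈ X ↔ M ∈ X) := by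
    intro j
    induction j with
    | zero => simp
    | succ j ih =>
      rw [hstep (M + (j + 1)) (by omega)]
      exact ih
  by_cases hMX : M ∈ X
  · apply hX.2
    refine (Set.finite_lt_nat M).subset ?_
    intro n hn
    by_contra hcon
    have hcon : ¬ n < M := hcon
    apply hn
    have := (hconst (n - M)).mpr hMX
    rwa [show M + (n - M) = n by omega] at this
  · apply hX.1
    refine (Set.finite_lt_nat M).subset ?_
    intro n hn
    by_contra hcon
    have hcon : ¬ n < M := hcon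
    apply hMX
    apply (hconst (n - M)).mp
    rwa [show M + (n - M) = n by omega]

open Classical in
/-- indicator of `X` -/
noncomputable def xx (X : Set ℕ) (m : ℕ) : ℝ := if m ∈ X then 1 else 0

open Classical in
/-- shifted indicator of `X` -/
noncomputable def yy (X : Set ℕ) (m : ℕ) : ℝ := if 0 < m ∧ m - 1 ∈ X then 1 else 0

/-- Summation by parts. -/
theorem psum_parts (X : Set ℕ) (b : ℕ → ℚ) (m : ℕ) :
    psum X (fun i => b (i + 1) - b i) m =
      yy X m * b m - ∑ i ∈ Finset.range m, (xx X i - yy X i) * (b i : ℝ) := by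
  classical
  induction m with
  | zero => simp [psum, yy]
  | succ m ih =>
    have h1 : psum X (fun i => b (i + 1) - b i) (m + 1) =
        psum X (fun i => b (i + 1) - b i) m + xx X m * ((b (m + 1) : ℝ) - b m) := by
      unfold psum xx
      rw [Finset.sum_range_succ]
      by_cases hm : m ∈ X <;> simp [hm]
    have h2 : yy X (m + 1) = xx X m := by
      unfold yy xx
      simp
    rw [h1, ih, Finset.sum_range_succ, h2]
    ring

end parts

section main

open Classical

/-- The null sequence with random signs and sizes `1/(k+1)` on the `k`-th block. -/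
noncomputable def bb (idx : ℕ → ℕ) (ε : ℕ → Bool) (m : ℕ) : ℚ :=
  (if ε m then 1 else -1) / ((idx m : ℚ) + 1)

/-- The series with partial sums `b(m) - b(0)`. -/
noncomputable def aa (idx : ℕ → ℕ) (ε : ℕ → Bool) (m : ℕ) : ℚ := bb idx ε (m + 1) - bb idx ε m

theorem bb_tendsto {idx : ℕ → ℕ} (hidx : Tendsto idx atTop atTop) (ε : ℕ → Bool) :
    Tendsto (fun m => (bb idx ε m : ℝ)) atTop (𝓝 0) := by
  apply squeeze_zero_norm (a := fun m => 1 / ((idx m : ℝ) + 1))
  · intro m
    unfold bb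
    rw [Real.norm_eq_abs]
    push_cast
    rw [abs_div, abs_of_pos (show (0 : ℝ) < (idx m : ℝ) + 1 by positivity)]
    apply div_le_div_of_nonneg_right _ (by positivity)
    split_ifs <;> simp
  · exact tendsto_one_div_add_atTop_nhds_zero_nat.comp hidx

theorem aa_converges {idx : ℕ → ℕ} (hidx : Tendsto idx atTop atTop) (ε : ℕ → Bool) :
    Converges (aa idx ε) := by
  refine ⟨0 - (bb idx ε 0 : ℝ), ?_⟩
  refine ((bb_tendsto hidx ε).sub_const _).congr ?_
  intro m
  have := Finset.sum_range_sub (fun i => (bb idx ε i : ℝ)) m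
  rw [← this]
  apply Finset.sum_congr rfl
  intro i _
  unfold aa
  push_cast
  rfl

theorem block_sum {s idx : ℕ → ℕ} (hs : StrictMono s)
    (hidx : ∀ m, s (idx m) ≤ m ∧ m < s (idx m + 1)) (X : Set ℕ) (ε : ℕ → Bool) (k : ℕ) :
    ∑ i ∈ Finset.Ico (s k) (s (k + 1)), (xx X i - yy X i) * (bb idx ε i : ℝ) =
      (ssum ((Finset.Ico (s k) (s (k + 1))).filter (· ∈ bd X)) (fun i => decide (i ∈ X)) ε : ℝ) /
        ((k : ℝ) + 1) := by
  unfold ssum
  push_cast
  rw [Finset.sum_div, Finset.sum_filter]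
  apply Finset.sum_congr rfl
  intro i hi
  rw [Finset.mem_Ico] at hi
  have hk : idx i = k := index_unique hs (hidx i).1 (hidx i).2 hi.1 hi.2
  by_cases hbd : i ∈ bd X
  · rw [if_pos hbd]
    unfold bb
    rw [hk]
    push_cast
    have hbd' : ¬ (i ∈ X ↔ (0 < i ∧ i - 1 ∈ X)) := hbd
    unfold xx yy
    by_cases h1 : i ∈ X
    · have h2 : ¬ (0 < i ∧ i - 1 ∈ X) := fun h2 => hbd' ⟨fun _ => h2, fun _ => h1⟩
      rw [if_pos h1, if_neg h2]
      simp only [h1, decide_true]
      cases ε i <;> simp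
    · have h2 : (0 < i ∧ i - 1 ∈ X) := by
        by_contra h2
        exact hbd' ⟨fun h => absurd h h1, fun h => absurd h h2⟩
      rw [if_neg h1, if_pos h2]
      simp only [h1, decide_false]
      cases ε i <;> simp <;> ring
  · rw [if_neg hbd]
    have hbd' : (i ∈ X ↔ (0 < i ∧ i - 1 ∈ X)) := by
      by_contra h
      exact hbd h
    have : xx X i = yy X i := by
      unfold xx yy
      by_cases h1 : i ∈ X
      · rw [if_pos h1, if_pos (hbd'.mp h1)]
      · rw [if_neg h1, if_neg (fun h2 => h1 (hbd'.mpr h2))]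
    rw [this]
    ring

/-- Convergence of the subseries forces small signed sums on almost all blocks. -/
theorem small_of_converges {s idx : ℕ → ℕ} (hs : StrictMono s)
    (hidx : ∀ m, s (idx m) ≤ m ∧ m < s (idx m + 1)) (hidxt : Tendsto idx atTop atTop)
    {X : Set ℕ} (hX : InfCoinf X) {ε : ℕ → Bool} (hc : Converges (sub X (aa idx ε))) :
    ∀ᶠ k in atTop, |ssum ((Finset.Ico (s k) (s (k + 1))).filter (· ∈ bd X))
      (fun i => decide (i ∈ X)) ε| ≤ k := by
  rw [converges_sub_iff hX.1] at hc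
  obtain ⟨L, hL⟩ := hc
  have hb := bb_tendsto hidxt ε
  have hy : Tendsto (fun m => yy X m * (bb idx ε m : ℝ)) atTop (𝓝 0) := by
    apply squeeze_zero_norm (a := fun m => |(bb idx ε m : ℝ)|)
    · intro m
      rw [norm_mul, Real.norm_eq_abs, Real.norm_eq_abs]
      have : |yy X m| ≤ 1 := by
        unfold yy
        split_ifs <;> simp
      exact mul_le_of_le_one_left (abs_nonneg _) this
    · simpa using hb.abs
  have hR : Tendsto (fun m => ∑ i ∈ Finset.range m, (xx X i - yy X i) * (bb idx ε i : ℝ)) atTop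
      (𝓝 (0 - L)) := by
    refine (hy.sub hL).congr ?_
    intro m
    have := psum_parts X (bb idx ε) m
    have e : aa idx ε = fun i => bb idx ε (i + 1) - bb idx ε i := rfl
    rw [e, this]
    ring
  have hst : Tendsto s atTop atTop := hs.tendsto_atTop
  have h1 := (hR.comp (hst.comp (tendsto_add_atTop_nat 1))).sub (hR.comp hst)
  rw [sub_self] at h1
  have h2 : ∀ k, ((fun m => ∑ i ∈ Finset.range m, (xx X i - yy X i) * (bb idx ε i : ℝ)) ∘
      (s ∘ fun a => a + 1)) k - ((fun m => ∑ i ∈ Finset.range m, (xx X i - yy X i) *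
      (bb idx ε i : ℝ)) ∘ s) k = (ssum ((Finset.Ico (s k) (s (k + 1))).filter (· ∈ bd X))
      (fun i => decide (i ∈ X)) ε : ℝ) / ((k : ℝ) + 1) := by
    intro k
    rw [← block_sum hs hidx X ε k, Finset.sum_Ico_eq_sub _ (hs.monotone (Nat.le_succ k))]
    rfl
  have h3 := h1.congr h2
  have h4 := (tendsto_order.1 h3.abs).2 1 (by simp)
  filter_upwards [h4] with k hk
  rw [abs_div, abs_of_pos (show (0 : ℝ) < (k : ℝ) + 1 by positivity), div_lt_one (by positivity)]
    at hk
  have hk2 : |ssum ((Finset.Ico (s k) (s (k + 1))).filter (· ∈ bd X))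
      (fun i => decide (i ∈ X)) ε| < (k : ℤ) + 1 := by
    exact_mod_cast hk
  omega

/-- For each `X` with infinitely many long blocks, convergence happens with probability `0`. -/
theorem coin_converges_eq_zero {s idx : ℕ → ℕ} (hs : StrictMono s)
    (hidx : ∀ m, s (idx m) ≤ m ∧ m < s (idx m + 1)) (hidxt : Tendsto idx atTop atTop)
    {X : Set ℕ} (hX : InfCoinf X)
    (hfreq : ∃ᶠ k in atTop, (k + 1) ^ 4 ≤
      ((Finset.Ico (s k) (s (k + 1))).filter (· ∈ bd X)).card) :
    coin {ε | Converges (sub X (aa idx ε))} = 0 := by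
  set M : ℕ → Finset ℕ := fun k => (Finset.Ico (s k) (s (k + 1))).filter (· ∈ bd X) with hM
  set σ : ℕ → Bool := fun i => decide (i ∈ X) with hσ
  let E : ℕ → Set (ℕ → Bool) := fun k => {ε | |ssum (M k) σ ε| ≤ k}
  have hsub : ({ε | Converges (sub X (aa idx ε))} : Set (ℕ → Bool)) ⊆
      ⋃ K : ℕ, ⋂ k : ℕ, ⋂ _ : K ≤ k, E k := by
    intro ε hε
    obtain ⟨K, hK⟩ := eventually_atTop.mp (small_of_converges hs hidx hidxt hX hε)
    simp only [mem_iUnion, mem_iInter]
    exact ⟨K, fun k hk => hK k hk⟩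
  apply measure_mono_null hsub
  rw [measure_iUnion_null_iff]
  intro K
  have hle : ∀ n : ℕ, coin (⋂ k : ℕ, ⋂ _ : K ≤ k, E k) ≤ ((n : ENNReal) + 1)⁻¹ := by
    intro n
    obtain ⟨k, hk1, hk2⟩ := (hfreq.and_eventually (eventually_ge_atTop (max K n))).exists
    have h1 : (⋂ k : ℕ, ⋂ _ : K ≤ k, E k) ⊆ E k := by
      intro ε hε
      simp only [mem_iInter] at hε
      exact hε k ((le_max_left _ _).trans hk2)
    have h2 := coin_ssum (M k) σ k hk1
    have h3 : coin (E k) ≤ ((k : ENNReal) + 1)⁻¹ := by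
      rw [ENNReal.le_inv_iff_mul_le, mul_comm]
      exact h2
    refine (measure_mono h1).trans (h3.trans ?_)
    rw [ENNReal.inv_le_inv]
    have : n ≤ k := (le_max_right _ _).trans hk2
    gcongr
  by_contra hne
  have hpos : 0 < coin (⋂ k : ℕ, ⋂ _ : K ≤ k, E k) := pos_iff_ne_zero.mpr hne
  obtain ⟨n, hn⟩ := ENNReal.exists_inv_nat_lt hne
  have h5 := hle n
  have h6 : ((n : ENNReal) + 1)⁻¹ ≤ (n : ENNReal)⁻¹ := by
    rw [ENNReal.inv_le_inv]
    exact le_self_add
  exact absurd (h5.trans h6) (not_le.mpr hn)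

/-- Fewer than `min {𝔡, cov(𝒩)}` index sets never suffice. -/
theorem exists_bad_series {𝒳 : Set (Set ℕ)} (hne : 𝒳.Nonempty) (h𝒳 : ∀ X ∈ 𝒳, InfCoinf X)
    (hd : #𝒳 < dominatingNumber) (hcov : #𝒳 < covNull) :
    ∃ a : ℕ → ℚ, CondConverges a ∧ ∀ X ∈ 𝒳, ¬ Converges (sub X a) := by
  obtain ⟨s, hs, hs0, hfreq⟩ := exists_blocks bd (fun X hX => bd_infinite (h𝒳 X hX)) hd
  obtain ⟨idx, hidx, hidxt⟩ := exists_index hs hs0
  let Z : Set ℕ → Set (ℕ → Bool) := fun X => {ε | Converges (sub X (aa idx ε))}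
  have hZ : ∀ X ∈ 𝒳, coin (Z X) = 0 := fun X hX =>
    coin_converges_eq_zero hs hidx hidxt (h𝒳 X hX) (hfreq X hX)
  obtain ⟨ε, hε⟩ : ∃ ε, ∀ X ∈ 𝒳, ε ∉ Z X := by
    by_contra hcon
    push Not at hcon
    have h1 : covNull ≤ #(Z '' 𝒳) := by
      apply csInf_le'
      refine ⟨Z '' 𝒳, ?_, ?_, rfl⟩
      · rintro _ ⟨X, hX, rfl⟩
        exact hZ X hX
      · rw [Set.eq_univ_iff_forall]
        intro ε
        obtain ⟨X, hX, hε⟩ := hcon ε
        exact ⟨Z X, ⟨X, hX, rfl⟩, hε⟩
    exact absurd (h1.trans Cardinal.mk_image_le) (not_le.mpr hcov)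
  refine ⟨aa idx ε, ⟨aa_converges hidxt ε, ?_⟩, hε⟩
  intro habs
  obtain ⟨X, hX⟩ := hne
  exact hε X hX (converges_sub_of_abs (h𝒳 X hX).1 habs)

theorem min_le_ssC : min dominatingNumber covNull ≤ ssC := by
  apply le_ssC
  intro 𝒳 h1 h2
  by_contra hcon
  push Not at hcon
  obtain ⟨hd, hcov⟩ := lt_min_iff.mp hcon
  obtain ⟨a₀, ha₀⟩ := exists_condConverges
  obtain ⟨X₀, hX₀, _⟩ := h2 a₀ ha₀
  obtain ⟨a, ha, hbad⟩ := exists_bad_series ⟨X₀, hX₀⟩ h1 hd hcov
  obtain ⟨X, hX, hc⟩ := h2 a ha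
  exact hbad X hX hc

theorem aleph0_le_dominatingNumber : ℵ₀ ≤ dominatingNumber := by
  apply le_csInf
  · exact ⟨_, Set.univ, fun f => ⟨f, Set.mem_univ _, by simp⟩, rfl⟩
  · rintro _ ⟨D, hD, rfl⟩
    by_contra hcon
    push Not at hcon
    have hfin : D.Finite := Cardinal.lt_aleph0_iff_set_finite.mp hcon
    obtain ⟨g, hg, hfg⟩ := hD (fun n => ∑ g ∈ hfin.toFinset, g n + 1)
    obtain ⟨n, hn⟩ := hfg.exists
    have : g n ≤ ∑ g ∈ hfin.toFinset, g n :=
      Finset.single_le_sum (f := fun g : ℕ → ℕ => g n) (fun _ _ => Nat.zero_le _)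
        (hfin.mem_toFinset.mpr hg)
    omega

theorem aleph0_le_covNull : ℵ₀ ≤ covNull := by
  apply le_csInf
  · refine ⟨_, Set.range (fun ε : ℕ → Bool => {ε}), ?_, ?_, rfl⟩
    · rintro _ ⟨ε, rfl⟩
      have hle : ∀ n : ℕ, coin {ε} ≤ (1 / 2) ^ n := by
        intro n
        have h1 := coin_box (Finset.range n) ε
        rw [Finset.card_range] at h1
        rw [← h1]
        apply measure_mono
        rintro x rfl
        intro i _
        rfl
      by_contra hne
      have h2 : Tendsto (fun n : ℕ => ((1 / 2 : ENNReal)) ^ n) atTop (𝓝 0) :=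
        ENNReal.tendsto_pow_atTop_nhds_zero_of_lt_one (by norm_num)
      have h3 := ge_of_tendsto' h2 hle
      exact hne (le_antisymm h3 bot_le)
    · rw [Set.eq_univ_iff_forall]
      intro ε
      exact ⟨{ε}, ⟨ε, rfl⟩, rfl⟩
  · rintro _ ⟨𝒩, h1, h2, rfl⟩
    by_contra hcon
    push Not at hcon
    have hfin : 𝒩.Finite := Cardinal.lt_aleph0_iff_set_finite.mp hcon
    have h3 : coin (⋃₀ 𝒩) = 0 := by
      rw [measure_sUnion_null_iff hfin.countable]
      exact h1
    rw [h2, measure_univ] at h3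
    exact one_ne_zero h3

theorem ssC_eq_ssCC : ssC = ssCC := by
  apply le_antisymm ssC_le_ssCC
  have hinf : ℵ₀ ≤ ssC :=
    (le_min aleph0_le_dominatingNumber aleph0_le_covNull).trans min_le_ssC
  have hne : {κ : Cardinal.{0} | ∃ 𝒳 : Set (Set ℕ), (∀ X ∈ 𝒳, InfCoinf X) ∧
      (∀ a : ℕ → ℚ, CondConverges a → ∃ X ∈ 𝒳, Converges (sub X a)) ∧ #𝒳 = κ}.Nonempty := by
    refine ⟨#{X | InfCoinf X}, {X | InfCoinf X}, fun X hX => hX, ?_, rfl⟩
    intro a ha
    obtain ⟨X, hX, hc⟩ := exists_sub_converges ha.1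
    exact ⟨X, hX, hc⟩
  obtain ⟨𝒳, h1, h2, h3⟩ := csInf_mem hne
  have h4 : #𝒳 = ssC := h3
  exact ssCC_le_of_family h4.le hinf h1 h2

end main

end Pool.Agent.K4H98.SubseriesNull
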